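import Pool.Agent.Q216.PB.Defs

set_option autoImplicit false

/-!
# Distribution functions
-/

namespace Pool.Agent.Q216.PB

open MeasureTheory Set Filter Topology
open scoped ENNReal

/-- abstract form of the fixed point relation between the law `μ` of `X` and `σ` of `X^(ψ)` -/
structure Rel (w : ℝ) (μ σ : Measure ℝ) : Prop where
  w0 : 0 < w
  pμ : IsProbabilityMeasure μ
  pσ : IsProbabilityMeasure σ
  pos : μ (Iic 0) = 0
  ac : σ ≪ μ
  cdf : ∀ x : ℝ, 0 < x → μ.real (Iic x) = ∫ z, min 1 ((x / z) ^ w) ∂σ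

/-- the tail integral `∫_{z > x} z^{-w} dσ` -/
noncomputable def I (w : ℝ) (σ : Measure ℝ) (x : ℝ) : ℝ := ∫ z in Ioi x, z ^ (-w) ∂σ

section

variable {w : ℝ} {μ σ : Measure ℝ}

lemma Rel.posσ (h : Rel w μ σ) : σ (Iic 0) = 0 := h.ac h.pos

lemma Rel.aepos (h : Rel w μ σ) : ∀ᵐ z ∂σ, 0 < z := by
  have := h.posσ
  rw [ae_iff]
  convert this using 2
  ext z; simp

lemma Rel.intker (h : Rel w μ σ) {x : ℝ} (hx : 0 < x) : Integrable (fun z => min 1 ((x / z) ^ w)) σ := by
  have := h.pσ
  refine Integrable.of_bound (C := 1) ?_ ?_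
  · exact (Measurable.min measurable_const (by fun_prop)).aestronglyMeasurable
  · filter_upwards [h.aepos] with z hz
    have h1 : 0 ≤ (x / z) ^ w := by positivity
    rw [Real.norm_eq_abs, abs_of_nonneg (le_min zero_le_one h1)]
    exact min_le_left _ _

lemma Rel.intI (h : Rel w μ σ) {x : ℝ} (hx : 0 < x) : IntegrableOn (fun z : ℝ => z ^ (-w)) (Ioi x) σ := by
  have := h.pσ
  refine Integrable.of_bound (C := x ^ (-w)) (by fun_prop) ?_
  refine (ae_restrict_iff' measurableSet_Ioi).2 (Eventually.of_forall (fun z hz => ?_))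
  have hz' : x < z := hz
  have hz0 : 0 < z := by linarith
  rw [Real.norm_eq_abs, abs_of_pos (by positivity)]
  exact Real.rpow_le_rpow_of_nonpos hx hz'.le (by linarith [h.w0])

/-- `F(x) - S(x) = x^w I(x)` -/
lemma Rel.FS (h : Rel w μ σ) {x : ℝ} (hx : 0 < x) :
    μ.real (Iic x) - σ.real (Iic x) = x ^ w * I w σ x := by
  have := h.pσ
  rw [h.cdf x hx]
  have h1 : ∫ z, min 1 ((x / z) ^ w) ∂σ = ∫ z in Iic x, min 1 ((x / z) ^ w) ∂σ +
      ∫ z in Ioi x, min 1 ((x / z) ^ w) ∂σ := by
    rw [← integral_add_compl (measurableSet_Iic (a := x)) (h.intker hx), compl_Iic]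
  have h2 : ∫ z in Iic x, min 1 ((x / z) ^ w) ∂σ = σ.real (Iic x) := by
    have : ∫ z in Iic x, min 1 ((x / z) ^ w) ∂σ = ∫ z in Iic x, (1 : ℝ) ∂σ := by
      refine setIntegral_congr_ae measurableSet_Iic ?_
      filter_upwards [h.aepos] with z hz hzx
      rw [min_eq_left]
      apply Real.one_le_rpow _ h.w0.le
      rw [one_le_div hz]; exact hzx
    rw [this]; simp
  have h3 : ∫ z in Ioi x, min 1 ((x / z) ^ w) ∂σ = x ^ w * I w σ x := by
    unfold I
    rw [← integral_const_mul]
    refine setIntegral_congr_fun measurableSet_Ioi (fun z hz => ?_)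
    have hz' : x < z := hz
    have hz0 : 0 < z := by linarith
    rw [min_eq_right, Real.div_rpow hx.le hz0.le, Real.rpow_neg hz0.le, div_eq_mul_inv]
    apply Real.rpow_le_one (by positivity) _ h.w0.le
    rw [div_le_one hz0]; exact hz'.le
  rw [h1, h2, h3]; ring

/-- squeeze -/
lemma Rel.squeeze (h : Rel w μ σ) {x y : ℝ} (hx : 0 < x) (hxy : x < y) :
    (y ^ w - x ^ w) * I w σ y ≤ μ.real (Iic y) - μ.real (Iic x) ∧
      μ.real (Iic y) - μ.real (Iic x) ≤ (y ^ w - x ^ w) * I w σ x := by
  have hy : 0 < y := hx.trans hxy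
  have hpw : x ^ w < y ^ w := Real.rpow_lt_rpow hx.le hxy h.w0
  rw [h.cdf x hx, h.cdf y hy, ← integral_sub (h.intker hy) (h.intker hx)]
  -- pointwise bounds
  have hlow : ∀ᵐ z ∂σ, (Ioi y).indicator (fun z => (y ^ w - x ^ w) * z ^ (-w)) z ≤
      min 1 ((y / z) ^ w) - min 1 ((x / z) ^ w) := by
    filter_upwards [h.aepos] with z hz
    by_cases hzy : z ∈ Ioi y
    · have hzy' : y < z := hzy
      rw [indicator_of_mem hzy, min_eq_right, min_eq_right, Real.div_rpow hy.le hz.le,
        Real.div_rpow hx.le hz.le, Real.rpow_neg hz.le]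
      · apply le_of_eq; ring
      · exact Real.rpow_le_one (by positivity) (by rw [div_le_one hz]; linarith) h.w0.le
      · exact Real.rpow_le_one (by positivity) (by rw [div_le_one hz]; linarith) h.w0.le
    · rw [indicator_of_notMem hzy, sub_nonneg]
      refine min_le_min le_rfl (Real.rpow_le_rpow (by positivity) ?_ h.w0.le)
      exact div_le_div_of_nonneg_right hxy.le hz.le
  have hup : ∀ᵐ z ∂σ, min 1 ((y / z) ^ w) - min 1 ((x / z) ^ w) ≤
      (Ioi x).indicator (fun z => (y ^ w - x ^ w) * z ^ (-w)) z := by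
    filter_upwards [h.aepos] with z hz
    by_cases hzx : z ∈ Ioi x
    · have hzx' : x < z := hzx
      rw [indicator_of_mem hzx, min_eq_right (a := 1) (b := (x / z) ^ w)]
      · have h1 := min_le_right 1 ((y / z) ^ w)
        rw [Real.div_rpow hx.le hz.le, Real.rpow_neg hz.le]
        rw [Real.div_rpow hy.le hz.le] at h1 ⊢
        have : (y ^ w - x ^ w) * (z ^ w)⁻¹ = y ^ w / z ^ w - x ^ w / z ^ w := by ring
        linarith
      · exact Real.rpow_le_one (by positivity) (by rw [div_le_one hz]; linarith) h.w0.le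
    · have hzx' : z ≤ x := not_lt.1 hzx
      rw [indicator_of_notMem hzx, min_eq_left, min_eq_left]
      · simp
      · exact Real.one_le_rpow (by rw [one_le_div hz]; exact hzx') h.w0.le
      · exact Real.one_le_rpow (by rw [one_le_div hz]; linarith) h.w0.le
  have hi : Integrable (fun z => min 1 ((y / z) ^ w) - min 1 ((x / z) ^ w)) σ :=
    (h.intker hy).sub (h.intker hx)
  have j1 : IntegrableOn (fun z : ℝ => (y ^ w - x ^ w) * z ^ (-w)) (Ioi y) σ :=
    (h.intI hy).const_mul _
  have j2 : IntegrableOn (fun z : ℝ => (y ^ w - x ^ w) * z ^ (-w)) (Ioi x) σ :=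
    (h.intI hx).const_mul _
  have i1 : Integrable ((Ioi y).indicator (fun z => (y ^ w - x ^ w) * z ^ (-w))) σ :=
    j1.integrable_indicator measurableSet_Ioi
  have i2 : Integrable ((Ioi x).indicator (fun z => (y ^ w - x ^ w) * z ^ (-w))) σ :=
    j2.integrable_indicator measurableSet_Ioi
  have e1 : ∫ z, (Ioi y).indicator (fun z => (y ^ w - x ^ w) * z ^ (-w)) z ∂σ = (y ^ w - x ^ w) * I w σ y := by
    rw [integral_indicator measurableSet_Ioi, integral_const_mul]; rfl
  have e2 : ∫ z, (Ioi x).indicator (fun z => (y ^ w - x ^ w) * z ^ (-w)) z ∂σ = (y ^ w - x ^ w) * I w σ x := by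
    rw [integral_indicator measurableSet_Ioi, integral_const_mul]; rfl
  constructor
  · rw [← e1]; exact integral_mono_ae i1 hi hlow
  · rw [← e2]; exact integral_mono_ae hi i2 hup

lemma Rel.I_nonneg (h : Rel w μ σ) {x : ℝ} (hx : 0 < x) : 0 ≤ I w σ x := by
  unfold I
  refine setIntegral_nonneg measurableSet_Ioi (fun z hz => ?_)
  have hz0 : 0 < z := hx.trans hz
  positivity

lemma Rel.I_anti (h : Rel w μ σ) {x y : ℝ} (hx : 0 < x) (hxy : x ≤ y) : I w σ y ≤ I w σ x := by
  unfold I
  refine setIntegral_mono_set (h.intI hx) ?_ (Filter.Eventually.of_forall (Ioi_subset_Ioi hxy))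
  refine (ae_restrict_iff' measurableSet_Ioi).2 (Eventually.of_forall (fun z hz => ?_))
  have hz0 : 0 < z := hx.trans hz
  simp only [Pi.zero_apply]
  positivity

/-- `F` is continuous at positive points -/
lemma Rel.F_cont (h : Rel w μ σ) {x : ℝ} (hx : 0 < x) : ContinuousAt (fun y => μ.real (Iic y)) x := by
  -- near x: |F(y) - F(x)| ≤ |y^w - x^w| I(x/2)
  have hb : ∀ᶠ y in 𝓝 x, |μ.real (Iic y) - μ.real (Iic x)| ≤ |y ^ w - x ^ w| * I w σ (x / 2) := by
    filter_upwards [lt_mem_nhds (show x / 2 < x by linarith)] with y hy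
    have hx2 : 0 < x / 2 := by linarith
    have hy0 : 0 < y := by linarith
    rcases lt_trichotomy y x with h1 | h1 | h1
    · obtain ⟨h2, h3⟩ := h.squeeze hy0 h1
      have hp : y ^ w < x ^ w := Real.rpow_lt_rpow hy0.le h1 h.w0
      have h4 := h.I_anti hx2 hy.le
      have h5 := h.I_nonneg hx
      rw [abs_sub_comm, abs_sub_comm (y ^ w), abs_of_nonneg, abs_of_pos (by linarith)]
      · exact h3.trans (mul_le_mul_of_nonneg_left h4 (by linarith))
      · exact le_trans (mul_nonneg (by linarith) h5) h2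
    · rw [h1]; simp
    · obtain ⟨h2, h3⟩ := h.squeeze hx h1
      have hp : x ^ w < y ^ w := Real.rpow_lt_rpow hx.le h1 h.w0
      have h4 := h.I_anti hx2 (by linarith : x / 2 ≤ x)
      have h5 := h.I_nonneg hy0
      rw [abs_of_nonneg, abs_of_pos (by linarith)]
      · exact h3.trans (mul_le_mul_of_nonneg_left h4 (by linarith))
      · exact le_trans (mul_nonneg (by linarith) h5) h2
  have hlim : Tendsto (fun y => |y ^ w - x ^ w| * I w σ (x / 2)) (𝓝 x) (𝓝 0) := by
    have h1 : ContinuousAt (fun y : ℝ => |y ^ w - x ^ w| * I w σ (x / 2)) x := by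
      have := Real.continuousAt_rpow_const x w (Or.inl hx.ne')
      exact ((this.sub continuousAt_const).abs).mul continuousAt_const
    have h2 := h1.tendsto
    simpa using h2
  rw [ContinuousAt, tendsto_iff_norm_sub_tendsto_zero]
  refine squeeze_zero' (Eventually.of_forall (fun y => norm_nonneg _)) ?_ hlim
  filter_upwards [hb] with y hy
  rwa [Real.norm_eq_abs]

lemma Rel.noatom (h : Rel w μ σ) {x : ℝ} (hx : 0 < x) : μ {x} = 0 := by
  have := h.pμ
  by_contra hne
  have hpos : 0 < μ.real {x} := by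
    rw [Measure.real, ENNReal.toReal_pos_iff]
    exact ⟨pos_iff_ne_zero.2 hne, measure_lt_top _ _⟩
  have hc := h.F_cont hx
  have h1 : ∀ᶠ y in 𝓝 x, μ.real (Iic x) - μ.real (Iic y) < μ.real {x} := by
    have h2 : Tendsto (fun y => μ.real (Iic x) - μ.real (Iic y)) (𝓝 x) (𝓝 0) := by
      have := (tendsto_const_nhds (x := μ.real (Iic x))).sub hc.tendsto
      simpa using this
    exact h2.eventually (gt_mem_nhds hpos)
  have h2 : ∀ᶠ y in 𝓝[<] x, μ.real (Iic x) - μ.real (Iic y) < μ.real {x} := h1.filter_mono nhdsWithin_le_nhds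
  obtain ⟨y, hy1, hy2⟩ := (h2.and self_mem_nhdsWithin).exists
  have hy2' : y < x := hy2
  have h3 : μ.real {x} + μ.real (Iic y) ≤ μ.real (Iic x) := by
    rw [← measureReal_union]
    · refine measureReal_mono ?_
      intro z hz
      rcases hz with hz | hz
      · rw [mem_singleton_iff] at hz; rw [hz]; exact mem_Iic.2 le_rfl
      · exact mem_Iic.2 (le_trans (mem_Iic.1 hz) hy2'.le)
    · rw [disjoint_singleton_left, mem_Iic, not_le]; exact hy2'
    · exact measurableSet_Iic
  linarith

lemma Rel.noatomσ (h : Rel w μ σ) {x : ℝ} (hx : 0 < x) : σ {x} = 0 := h.ac (h.noatom hx)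

/-- continuity of the tail integral -/
lemma Rel.I_cont (h : Rel w μ σ) {x : ℝ} (hx : 0 < x) : ContinuousAt (I w σ) x := by
  have := h.pσ
  have e : ∀ y, I w σ y = ∫ z, (Ioi y).indicator (fun z => z ^ (-w)) z ∂σ := by
    intro y; unfold I; rw [integral_indicator measurableSet_Ioi]
  have e' : I w σ = fun y => ∫ z, (Ioi y).indicator (fun z => z ^ (-w)) z ∂σ := funext e
  rw [ContinuousAt, e']
  have hx2 : 0 < x / 2 := by linarith
  refine tendsto_integral_filter_of_dominated_convergence (l := 𝓝 x) (μ := σ)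
    (F := fun (y z : ℝ) => (Ioi y).indicator (fun z : ℝ => z ^ (-w)) z)
    (f := fun z : ℝ => (Ioi x).indicator (fun z : ℝ => z ^ (-w)) z)
    (fun _ => (x / 2) ^ (-w)) ?_ ?_ ?_ ?_
  · refine Eventually.of_forall (fun y => ?_)
    exact ((by fun_prop : Measurable (fun z : ℝ => z ^ (-w))).indicator measurableSet_Ioi).aestronglyMeasurable
  · filter_upwards [lt_mem_nhds (show x / 2 < x by linarith)] with y hy
    refine Eventually.of_forall (fun z => ?_)
    by_cases hz : z ∈ Ioi y
    · have hz' : y < z := hz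
      have hz0 : 0 < z := by linarith
      rw [indicator_of_mem hz, Real.norm_eq_abs, abs_of_pos (by positivity)]
      exact Real.rpow_le_rpow_of_nonpos hx2 (by linarith) (by linarith [h.w0])
    · rw [indicator_of_notMem hz, norm_zero]; positivity
  · exact integrable_const _
  · have hne : ∀ᵐ z ∂σ, z ≠ x := by
      rw [ae_iff]
      simp only [ne_eq, not_not]
      exact h.noatomσ hx
    filter_upwards [hne] with z hz
    rcases lt_or_gt_of_ne hz with h1 | h1
    · have : ∀ᶠ y in 𝓝 x, (Ioi y).indicator (fun z : ℝ => z ^ (-w)) z = 0 := by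
        filter_upwards [lt_mem_nhds h1] with y hy
        rw [indicator_of_notMem]; simp; exact hy.le
      have h2 : (Ioi x).indicator (fun z : ℝ => z ^ (-w)) z = 0 := by
        rw [indicator_of_notMem]; simp; exact h1.le
      rw [h2]
      exact tendsto_const_nhds.congr' (EventuallyEq.symm this)
    · have : ∀ᶠ y in 𝓝 x, (Ioi y).indicator (fun z : ℝ => z ^ (-w)) z = z ^ (-w) := by
        filter_upwards [gt_mem_nhds h1] with y hy
        rw [indicator_of_mem]; exact hy
      have h2 : (Ioi x).indicator (fun z : ℝ => z ^ (-w)) z = z ^ (-w) := by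
        rw [indicator_of_mem]; exact h1
      rw [h2]
      exact tendsto_const_nhds.congr' (EventuallyEq.symm this)

/-- the derivative of `F` -/
noncomputable def fd (w : ℝ) (σ : Measure ℝ) (x : ℝ) : ℝ := w * x ^ (w - 1) * I w σ x

lemma Rel.F_deriv (h : Rel w μ σ) {x : ℝ} (hx : 0 < x) :
    HasDerivAt (fun y => μ.real (Iic y)) (fd w σ x) x := by
  have hpow : HasDerivAt (fun y : ℝ => y ^ w) (w * x ^ (w - 1)) x :=
    Real.hasDerivAt_rpow_const (Or.inl hx.ne')
  rw [hasDerivAt_iff_tendsto_slope] at hpow ⊢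
  -- slope F x y = slope pow x y * J y
  set J : ℝ → ℝ := fun y => (μ.real (Iic y) - μ.real (Iic x)) / (y ^ w - x ^ w) with hJ
  have hJlim : Tendsto J (𝓝[≠] x) (𝓝 (I w σ x)) := by
    have hIc : Tendsto (I w σ) (𝓝[≠] x) (𝓝 (I w σ x)) := (h.I_cont hx).tendsto.mono_left nhdsWithin_le_nhds
    have hc : Tendsto (fun _ : ℝ => I w σ x) (𝓝[≠] x) (𝓝 (I w σ x)) := tendsto_const_nhds
    have hlo := hIc.min hc
    have hhi := hIc.max hc
    rw [min_self] at hlo
    rw [max_self] at hhi
    refine tendsto_of_tendsto_of_tendsto_of_le_of_le' hlo hhi ?_ ?_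
    · have h0 : ∀ᶠ y in 𝓝[≠] x, 0 < y := nhdsWithin_le_nhds (lt_mem_nhds hx)
      filter_upwards [h0, self_mem_nhdsWithin] with y hy0 hy1
      have hne : y ≠ x := hy1
      rcases lt_or_gt_of_ne hne with h1 | h1
      · obtain ⟨h2, h3⟩ := h.squeeze hy0 h1
        have hp : y ^ w < x ^ w := Real.rpow_lt_rpow hy0.le h1 h.w0
        refine (min_le_right _ _).trans ?_
        simp only [hJ]
        rw [← neg_div_neg_eq, le_div_iff₀ (by linarith)]
        nlinarith
      · obtain ⟨h2, h3⟩ := h.squeeze hx h1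
        have hp : x ^ w < y ^ w := Real.rpow_lt_rpow hx.le h1 h.w0
        refine (min_le_left _ _).trans ?_
        simp only [hJ]
        rw [le_div_iff₀ (by linarith)]
        nlinarith
    · have h0 : ∀ᶠ y in 𝓝[≠] x, 0 < y := nhdsWithin_le_nhds (lt_mem_nhds hx)
      filter_upwards [h0, self_mem_nhdsWithin] with y hy0 hy1
      have hne : y ≠ x := hy1
      rcases lt_or_gt_of_ne hne with h1 | h1
      · obtain ⟨h2, h3⟩ := h.squeeze hy0 h1
        have hp : y ^ w < x ^ w := Real.rpow_lt_rpow hy0.le h1 h.w0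
        refine le_trans ?_ (le_max_left _ _)
        simp only [hJ]
        rw [← neg_div_neg_eq, div_le_iff₀ (by linarith)]
        nlinarith
      · obtain ⟨h2, h3⟩ := h.squeeze hx h1
        have hp : x ^ w < y ^ w := Real.rpow_lt_rpow hx.le h1 h.w0
        refine le_trans ?_ (le_max_right _ _)
        simp only [hJ]
        rw [div_le_iff₀ (by linarith)]
        nlinarith
  have hprod := hpow.mul hJlim
  refine Tendsto.congr' ?_ hprod
  have h0 : ∀ᶠ y in 𝓝[≠] x, 0 < y := nhdsWithin_le_nhds (lt_mem_nhds hx)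
  filter_upwards [h0, self_mem_nhdsWithin] with y hy0 hy1
  have hne : y ≠ x := hy1
  have hp : y ^ w - x ^ w ≠ 0 := by
    intro hcon
    apply hne
    have h2 : y ^ w = x ^ w := by linarith
    exact (Real.rpow_left_inj hy0.le hx.le h.w0.ne').1 h2
  simp only [hJ, slope_def_field]
  have hyx : y - x ≠ 0 := sub_ne_zero.2 hne
  field_simp

/-- if `F(x) < 1` then the tail integral is positive -/
lemma Rel.I_pos (h : Rel w μ σ) {x : ℝ} (hx : 0 < x) (hF : μ.real (Iic x) < 1) : 0 < I w σ x := by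
  have := h.pσ
  have := h.pμ
  refine lt_of_le_of_ne (h.I_nonneg hx) ?_
  intro h0
  have h1 := h.FS hx
  rw [← h0, mul_zero, sub_eq_zero] at h1
  -- then σ (Ioi x) = 0
  have hσ : σ (Ioi x) = 0 := by
    have h2 : ∫ z in Ioi x, z ^ (-w) ∂σ = 0 := h0.symm
    rw [setIntegral_eq_zero_iff_of_nonneg_ae] at h2
    · have h3 : ∀ᵐ z ∂(σ.restrict (Ioi x)), False := by
        filter_upwards [h2, ae_restrict_mem measurableSet_Ioi] with z hz1 hz2
        have hz0 : 0 < z := hx.trans hz2
        have : 0 < z ^ (-w) := by positivity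
        rw [hz1] at this
        exact lt_irrefl _ this
      rw [ae_iff] at h3
      simpa using h3
    · refine (ae_restrict_iff' measurableSet_Ioi).2 (Eventually.of_forall (fun z hz => ?_))
      have hz0 : 0 < z := hx.trans hz
      simp only [Pi.zero_apply]
      positivity
    · exact h.intI hx
  have h4 : σ.real (Iic x) = 1 := by
    have h5 : σ.real (Iic x) + σ.real (Iic x)ᶜ = 1 := probReal_add_probReal_compl measurableSet_Iic
    rw [compl_Iic] at h5
    have : σ.real (Ioi x) = 0 := by rw [Measure.real, hσ]; rfl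
    linarith
  linarith

lemma Rel.fd_pos (h : Rel w μ σ) {x : ℝ} (hx : 0 < x) (hF : μ.real (Iic x) < 1) : 0 < fd w σ x := by
  unfold fd
  have := h.I_pos hx hF
  have := h.w0
  positivity

lemma Rel.F_strict (h : Rel w μ σ) {x y : ℝ} (hx : 0 < x) (hxy : x < y) (hF : μ.real (Iic x) < 1) :
    μ.real (Iic x) < μ.real (Iic y) := by
  by_contra hcon
  push Not at hcon
  have := h.pμ
  have h1 : μ.real (Iic x) ≤ μ.real (Iic y) := measureReal_mono (Iic_subset_Iic.2 hxy.le)
  have h2 : μ.real (Iic y) < 1 := by linarith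
  have h3 := h.I_pos (hx.trans hxy) h2
  have h4 := (h.squeeze hx hxy).1
  have hp : x ^ w < y ^ w := Real.rpow_lt_rpow hx.le hxy h.w0
  have : 0 < (y ^ w - x ^ w) * I w σ y := mul_pos (by linarith) h3
  linarith

lemma Rel.F_pos (h : Rel w μ σ) {x : ℝ} (hx : 0 < x) : 0 < μ.real (Iic x) := by
  have := h.pμ
  by_contra hcon
  push Not at hcon
  have h0 : μ.real (Iic x) = 0 := le_antisymm hcon measureReal_nonneg
  have h1 := h.F_strict (x := x / 2) (y := x) (by linarith) (by linarith) (by
    have : μ.real (Iic (x / 2)) ≤ μ.real (Iic x) := measureReal_mono (Iic_subset_Iic.2 (by linarith))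
    linarith)
  have h2 : 0 ≤ μ.real (Iic (x / 2)) := measureReal_nonneg
  linarith

end

end Pool.Agent.Q216.PB
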