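import Mathlib

set_option autoImplicit false

/-!
# The power-bias fixed point equation
-/

namespace Pool.Agent.Q216.PB

open MeasureTheory Set Filter Topology
open scoped ENNReal

/-- the law of a Beta(w,1) random variable: density `w v^(w-1)` on `(0,1)` -/
noncomputable def betaLaw (w : ℝ) : Measure ℝ :=
  volume.withDensity (fun v => if 0 < v ∧ v < 1 then ENNReal.ofReal (w * v ^ (w - 1)) else 0)

/-- the `ψ`-power-bias law: pick `k` with probability `ψ k`, then bias by `x^k` -/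
noncomputable def powerBias (ψ : ℕ → ℝ) (μ : Measure ℝ) : Measure ℝ :=
  Measure.sum (fun k : ℕ => ENNReal.ofReal (ψ k / ∫ x, x ^ k ∂μ) •
    μ.withDensity (fun x => ENNReal.ofReal (x ^ k)))

/-- `μ` is the law of a positive random variable `X`, with `E X^k < ∞` whenever `ψ k > 0`, such
that `X` has the law of `V_w X^(ψ)` -/
structure IsSolution (w : ℝ) (ψ : ℕ → ℝ) (μ : Measure ℝ) : Prop where
  prob : IsProbabilityMeasure μ
  pos : μ (Iic 0) = 0
  moments : ∀ k, 0 < ψ k → Integrable (fun x : ℝ => x ^ k) μ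
  fixed : μ = ((betaLaw w).prod (powerBias ψ μ)).map (fun p : ℝ × ℝ => p.1 * p.2)

/-! ### the density of the bias -/

/-- coefficients -/
noncomputable def co (ψ : ℕ → ℝ) (μ : Measure ℝ) (k : ℕ) : ℝ := ψ k / ∫ x, x ^ k ∂μ

/-- `A(x) = Σ ψ_k x^k / E X^k` as an extended nonnegative number -/
noncomputable def Ae (ψ : ℕ → ℝ) (μ : Measure ℝ) (x : ℝ) : ℝ≥0∞ :=
  ∑' k, ENNReal.ofReal (co ψ μ k) * ENNReal.ofReal (x ^ k)

/-- `A(x)` as a real number -/
noncomputable def Ar (ψ : ℕ → ℝ) (μ : Measure ℝ) (x : ℝ) : ℝ := ∑' k, co ψ μ k * x ^ k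

lemma Ae_measurable (ψ : ℕ → ℝ) (μ : Measure ℝ) : Measurable (Ae ψ μ) := by
  unfold Ae
  exact Measurable.tsum (fun k => by fun_prop)

lemma powerBias_eq (ψ : ℕ → ℝ) (μ : Measure ℝ) : powerBias ψ μ = μ.withDensity (Ae ψ μ) := by
  unfold powerBias
  have h1 : (Ae ψ μ) = ∑' k, (fun x => ENNReal.ofReal (co ψ μ k) * ENNReal.ofReal (x ^ k)) := by
    funext x
    rw [tsum_apply]
    · rfl
    · exact Pi.summable.2 (fun x => ENNReal.summable)
  rw [h1, withDensity_tsum (fun k => by fun_prop)]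
  congr 1
  funext k
  have h2 : (fun x : ℝ => ENNReal.ofReal (co ψ μ k) * ENNReal.ofReal (x ^ k)) =
      ENNReal.ofReal (co ψ μ k) • (fun x : ℝ => ENNReal.ofReal (x ^ k)) := by
    funext x; rfl
  rw [h2, withDensity_smul _ (by fun_prop)]
  rfl

/-! ### distribution function of the beta law -/

lemma lint_rpow {w : ℝ} (hw : 0 < w) {m : ℝ} (hm : 0 ≤ m) :
    ∫⁻ v in Ioc 0 m, ENNReal.ofReal (w * v ^ (w - 1)) = ENNReal.ofReal (m ^ w) := by
  have hint : IntervalIntegrable (fun v : ℝ => w * v ^ (w - 1)) volume 0 m :=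
    (intervalIntegral.intervalIntegrable_rpow' (by linarith)).const_mul w
  have hint2 : Integrable (fun v : ℝ => w * v ^ (w - 1)) (volume.restrict (Ioc 0 m)) :=
    (intervalIntegrable_iff_integrableOn_Ioc_of_le hm).1 hint
  rw [← ofReal_integral_eq_lintegral_ofReal hint2]
  · congr 1
    rw [← intervalIntegral.integral_of_le hm, intervalIntegral.integral_const_mul,
      integral_rpow (Or.inl (by linarith))]
    have h1 : w - 1 + 1 = w := by ring
    rw [h1, Real.zero_rpow hw.ne', sub_zero]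
    field_simp
  · refine (ae_restrict_iff' measurableSet_Ioc).2 (Filter.Eventually.of_forall (fun v hv => ?_))
    have hv0 : 0 < v := hv.1
    simp only [Pi.zero_apply]
    positivity

lemma betaLaw_Iic {w : ℝ} (hw : 0 < w) {y : ℝ} (hy : 0 < y) :
    betaLaw w (Iic y) = ENNReal.ofReal (min 1 (y ^ w)) := by
  unfold betaLaw
  rw [withDensity_apply _ measurableSet_Iic]
  set m : ℝ := min 1 y with hm
  have hm0 : 0 < m := lt_min one_pos hy
  have e1 : (fun v : ℝ => if 0 < v ∧ v < 1 then ENNReal.ofReal (w * v ^ (w - 1)) else 0) =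
      (Ioo (0:ℝ) 1).indicator (fun v => ENNReal.ofReal (w * v ^ (w - 1))) := by
    funext v; rw [indicator_apply]; rfl
  rw [e1, setLIntegral_indicator measurableSet_Ioo]
  have e2 : (Ioo (0:ℝ) 1 ∩ Iic y : Set ℝ) =ᵐ[volume] Ioc 0 m := by
    rcases le_or_gt 1 y with h | h
    · have : (Ioo (0:ℝ) 1 ∩ Iic y : Set ℝ) = Ioo 0 1 := by
        ext v; simp only [mem_inter_iff, mem_Ioo, mem_Iic]; constructor
        · intro h1; exact h1.1
        · intro h1; exact ⟨h1, by linarith [h1.2]⟩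
      rw [this, hm, min_eq_left h]
      exact Ioo_ae_eq_Ioc
    · have : (Ioo (0:ℝ) 1 ∩ Iic y : Set ℝ) = Ioc 0 y := by
        ext v; simp only [mem_inter_iff, mem_Ioo, mem_Iic, mem_Ioc]; constructor
        · intro h1; exact ⟨h1.1.1, h1.2⟩
        · intro h1; exact ⟨⟨h1.1, by linarith [h1.2]⟩, h1.2⟩
      rw [this, hm, min_eq_right h.le]
  rw [Measure.restrict_congr_set e2, lint_rpow hw hm0.le]
  congr 1
  rcases le_or_gt 1 y with h | h
  · rw [hm, min_eq_left h, Real.one_rpow, min_eq_left]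
    exact Real.one_le_rpow h hw.le
  · rw [hm, min_eq_right h.le, min_eq_right]
    exact Real.rpow_le_one hy.le h.le hw.le

/-- the kernel `min(1,(x/z)^w)` -/
noncomputable def ker (w x z : ℝ) : ℝ := min 1 ((x / z) ^ w)

end Pool.Agent.Q216.PB
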