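import Pool.Agent.Q216.PB.Trans

set_option autoImplicit false

/-!
# The key inequality along the monotone coupling
-/

namespace Pool.Agent.Q216.PB

open MeasureTheory Set Filter Topology
open scoped ENNReal

/-- derivative of `y ↦ ∫_{(-∞,y]} g dμ` -/
lemma deriv_int {μ : Measure ℝ} [IsFiniteMeasure μ] {f x : ℝ} (hF : HasDerivAt (F μ) f x)
    {g : ℝ → ℝ} (hg : Integrable g μ) (hc : ContinuousAt g x) :
    HasDerivAt (fun y => ∫ z in Iic y, g z ∂μ) (g x * f) x := by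
  rw [hasDerivAt_iff_isLittleO] at hF ⊢
  -- difference: ∫_{Ioc} (g - g x)
  have hdiff : ∀ y, (∫ z in Iic y, g z ∂μ) - (∫ z in Iic x, g z ∂μ) - g x * (F μ y - F μ x) =
      (∫ z in Iic y, (g z - g x) ∂μ) - (∫ z in Iic x, (g z - g x) ∂μ) := by
    intro y
    rw [integral_sub hg.integrableOn (integrable_const _), integral_sub hg.integrableOn (integrable_const _)]
    simp only [setIntegral_const, smul_eq_mul]
    unfold F
    ring
  have hgi : Integrable (fun z => g z - g x) μ := hg.sub (integrable_const _)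
  have hsmall : (fun y => (∫ z in Iic y, (g z - g x) ∂μ) - (∫ z in Iic x, (g z - g x) ∂μ)) =o[𝓝 x]
      fun y => y - x := by
    -- bounded by ε |F y - F x| and |F y - F x| = O(y - x)
    have hO : (fun y => F μ y - F μ x) =O[𝓝 x] fun y => y - x := by
      have h1 : (fun y => F μ y - F μ x) = fun y => (F μ y - F μ x - (y - x) • f) + (y - x) • f := by
        funext y; ring
      rw [h1]
      refine hF.isBigO.add ?_
      have : (fun y : ℝ => (y - x) • f) = fun y => f * (y - x) := by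
        funext y; rw [smul_eq_mul, mul_comm]
      rw [this]
      exact (Asymptotics.isBigO_refl _ _).const_mul_left f
    refine Asymptotics.IsLittleO.trans_isBigO ?_ hO
    rw [Asymptotics.isLittleO_iff]
    intro ε hε
    rw [Metric.continuousAt_iff] at hc
    obtain ⟨δ, hδ, hδ2⟩ := hc ε hε
    filter_upwards [Metric.ball_mem_nhds x hδ] with y hy
    rw [Metric.mem_ball, Real.dist_eq] at hy
    have habs := abs_lt.1 hy
    rcases le_total x y with hxy | hxy
    · have h1 : (∫ z in Iic y, (g z - g x) ∂μ) - (∫ z in Iic x, (g z - g x) ∂μ) =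
          ∫ z in Ioc x y, (g z - g x) ∂μ := by
        rw [← Iic_sdiff_Iic, setIntegral_sdiff measurableSet_Iic hgi.integrableOn (Iic_subset_Iic.2 hxy)]
      have h2 : F μ y - F μ x = μ.real (Ioc x y) := by
        unfold F
        rw [← Iic_sdiff_Iic, measureReal_sdiff (Iic_subset_Iic.2 hxy) measurableSet_Iic]
      rw [h1, h2, Real.norm_eq_abs (μ.real _), abs_of_nonneg measureReal_nonneg]
      refine norm_setIntegral_le_of_norm_le_const (measure_lt_top _ _) (fun z hz => ?_)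
      rw [Real.norm_eq_abs]
      have : dist (g z) (g x) < ε := hδ2 (by rw [Real.dist_eq, abs_lt]; constructor <;> linarith [hz.1, hz.2])
      rw [Real.dist_eq] at this
      exact this.le
    · have h1 : (∫ z in Iic y, (g z - g x) ∂μ) - (∫ z in Iic x, (g z - g x) ∂μ) =
          - ∫ z in Ioc y x, (g z - g x) ∂μ := by
        rw [← Iic_sdiff_Iic, setIntegral_sdiff measurableSet_Iic hgi.integrableOn (Iic_subset_Iic.2 hxy)]
        ring
      have h2 : F μ y - F μ x = - μ.real (Ioc y x) := by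
        unfold F
        rw [← Iic_sdiff_Iic, measureReal_sdiff (Iic_subset_Iic.2 hxy) measurableSet_Iic]
        ring
      rw [h1, h2, norm_neg, norm_neg, Real.norm_eq_abs (μ.real _), abs_of_nonneg measureReal_nonneg]
      refine norm_setIntegral_le_of_norm_le_const (measure_lt_top _ _) (fun z hz => ?_)
      rw [Real.norm_eq_abs]
      have : dist (g z) (g x) < ε := hδ2 (by rw [Real.dist_eq, abs_lt]; constructor <;> linarith [hz.1, hz.2])
      rw [Real.dist_eq] at this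
      exact this.le
  have hsum := hsmall.add (hF.const_mul_left (g x))
  refine hsum.congr' (Eventually.of_forall (fun y => ?_)) (EventuallyEq.refl _ _)
  have := hdiff y
  simp only [smul_eq_mul]
  rw [← this]
  ring

/-! ### the coupling -/

section

variable {w : ℝ} {ψ : ℕ → ℝ} {μ ν : Measure ℝ}

/-- `G = F - S = x^w I(x)` -/
noncomputable def G (w : ℝ) (σ : Measure ℝ) (x : ℝ) : ℝ := x ^ w * I w σ x

lemma fd_eq {w : ℝ} {σ : Measure ℝ} {x : ℝ} (hx : 0 < x) : fd w σ x = w * G w σ x / x := by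
  unfold fd G
  rw [Real.rpow_sub_one hx.ne']
  ring

/-- the region where both the coupling and everything else is regular -/
def Reg (μ : Measure ℝ) : Set ℝ := {x | 0 < x ∧ F μ x < 1}

lemma Reg_open {σ : Measure ℝ} (h : Rel w μ σ) : IsOpen (Reg μ) := by
  rw [isOpen_iff_mem_nhds]
  rintro x ⟨hx, hF⟩
  have h1 : ∀ᶠ y in 𝓝 x, F μ y < 1 := (h.F_cont hx).eventually (gt_mem_nhds hF)
  filter_upwards [h1, lt_mem_nhds hx] with y hy1 hy2
  exact ⟨hy2, hy1⟩

lemma Reg_convex {σ : Measure ℝ} (h : Rel w μ σ) : Convex ℝ (Reg μ) := by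
  refine Set.OrdConnected.convex ?_
  constructor
  rintro x ⟨hx, -⟩ y ⟨-, hy⟩ z ⟨hz1, hz2⟩
  exact ⟨hx.trans_le hz1, (h.F_mono hz2).trans_lt hy⟩

/-- log-ratio along the coupling -/
noncomputable def D (μ ν : Measure ℝ) (x : ℝ) : ℝ := Real.log (T μ ν x) - Real.log x

/-- the integrand -/
noncomputable def gg (ψ : ℕ → ℝ) (μ ν : Measure ℝ) (x : ℝ) : ℝ :=
  (Ar ψ μ x - Ar ψ ν (T μ ν x)) * Real.arctan (D μ ν x)

lemma Ar_meas (ψ : ℕ → ℝ) (μ : Measure ℝ) : Measurable (Ar ψ μ) := by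
  unfold Ar
  exact Measurable.tsum (fun k => by fun_prop)

lemma gg_meas {σ τ : Measure ℝ} (h : Rel w μ σ) (h' : Rel w ν τ) : Measurable (gg ψ μ ν) := by
  have hT := T_meas h h'
  unfold gg D
  exact ((Ar_meas ψ μ).sub ((Ar_meas ψ ν).comp hT)).mul
    (Real.measurable_arctan.comp ((Real.measurable_log.comp hT).sub Real.measurable_log))

lemma arctan_abs (x : ℝ) : |Real.arctan x| ≤ 2 := by
  have h1 := Real.arctan_lt_pi_div_two x
  have h2 := Real.neg_pi_div_two_lt_arctan x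
  have h3 := Real.pi_lt_four
  rw [abs_le]; constructor <;> linarith

lemma int_T {σ τ : Measure ℝ} (h : Rel w μ σ) (h' : Rel w ν τ) (hreg : ∀ᵐ x ∂μ, 0 < x ∧ F μ x < 1)
    {f : ℝ → ℝ} (hf : Measurable f) : ∫ x, f (T μ ν x) ∂μ = ∫ y, f y ∂ν := by
  have hT := T_meas h h'
  have h1 := integral_map (μ := μ) hT.aemeasurable (f := f) hf.aestronglyMeasurable
  rw [T_map h h' hreg] at h1
  exact h1.symm

lemma integrable_T {σ τ : Measure ℝ} (h : Rel w μ σ) (h' : Rel w ν τ)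
    (hreg : ∀ᵐ x ∂μ, 0 < x ∧ F μ x < 1) {f : ℝ → ℝ} (hf : Integrable f ν) :
    Integrable (fun x => f (T μ ν x)) μ := by
  have : Integrable f (μ.map (T μ ν)) := by rw [T_map h h' hreg]; exact hf
  exact this.comp_measurable (T_meas h h')

lemma gg_integrable (hψ : ∀ k, 0 ≤ ψ k) (hw : 0 < w) (hμ : IsSolution w ψ μ) (hν : IsSolution w ψ ν) :
    Integrable (gg ψ μ ν) μ := by
  have h := toRel hw hμ
  have h' := toRel hw hν
  have h1 := (Ar_integrable hψ hw hμ).1
  have h2 := integrable_T h h' (ae_region hw hμ) (Ar_integrable hψ hw hν).1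
  refine Integrable.mono' ((h1.sub h2).norm.const_mul 2) (gg_meas h h').aestronglyMeasurable ?_
  refine Eventually.of_forall (fun x => ?_)
  unfold gg
  rw [norm_mul, mul_comm]
  exact mul_le_mul_of_nonneg_right (arctan_abs _) (norm_nonneg _)

/-- `K = S₁ - S₂ ∘ T` -/
noncomputable def K (ψ : ℕ → ℝ) (μ ν : Measure ℝ) (x : ℝ) : ℝ :=
  (∫ z in Iic x, Ar ψ μ z ∂μ) - ∫ z in Iic (T μ ν x), Ar ψ ν z ∂ν

lemma K_deriv (hψ : ∀ k, 0 ≤ ψ k) (hw : 0 < w) (hμ : IsSolution w ψ μ) (hν : IsSolution w ψ ν)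
    {x : ℝ} (hx : x ∈ Reg μ) :
    HasDerivAt (K ψ μ ν) ((Ar ψ μ x - Ar ψ ν (T μ ν x)) * fd w (μ.withDensity (Ae ψ μ)) x) x := by
  have h := toRel hw hμ
  have h' := toRel hw hν
  have := hμ.prob
  have := hν.prob
  obtain ⟨hx0, hF⟩ := hx
  obtain ⟨hT0, hTF⟩ := T_spec h h' hx0 hF
  have hTF1 : F ν (T μ ν x) < 1 := by rw [hTF]; exact hF
  have d1 := deriv_int (h.F_deriv hx0) (Ar_integrable hψ hw hμ).1 (Ar_cont hψ hw hμ hx0 hF)
  have d2 := deriv_int (h'.F_deriv hT0) (Ar_integrable hψ hw hν).1 (Ar_cont hψ hw hν hT0 hTF1)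
  have d3 := HasDerivAt.comp x d2 (T_deriv h h' hx0 hF)
  have d4 := d1.sub d3
  have hne := (h'.fd_pos hT0 hTF1).ne'
  refine d4.congr_deriv ?_
  field_simp

/-- `K = G₂ ∘ T - G₁` -/
lemma K_eq (hψ : ∀ k, 0 ≤ ψ k) (hw : 0 < w) (hμ : IsSolution w ψ μ) (hν : IsSolution w ψ ν)
    {x : ℝ} (hx : x ∈ Reg μ) :
    K ψ μ ν x = G w (ν.withDensity (Ae ψ ν)) (T μ ν x) - G w (μ.withDensity (Ae ψ μ)) x := by
  have h := toRel hw hμ
  have h' := toRel hw hν
  obtain ⟨hx0, hF⟩ := hx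
  obtain ⟨hT0, hTF⟩ := T_spec h h' hx0 hF
  unfold K G
  rw [← sigma_eq hψ hw hμ measurableSet_Iic, ← sigma_eq hψ hw hν measurableSet_Iic]
  have e1 := h.FS hx0
  have e2 := h'.FS hT0
  have e3 : ν.real (Iic (T μ ν x)) = μ.real (Iic x) := hTF
  linarith

lemma D_deriv (hw : 0 < w) (hμ : IsSolution w ψ μ) (hν : IsSolution w ψ ν)
    {x : ℝ} (hx : x ∈ Reg μ) :
    HasDerivAt (D μ ν) ((G w (μ.withDensity (Ae ψ μ)) x - G w (ν.withDensity (Ae ψ ν)) (T μ ν x)) /
      (x * G w (ν.withDensity (Ae ψ ν)) (T μ ν x))) x := by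
  have h := toRel hw hμ
  have h' := toRel hw hν
  obtain ⟨hx0, hF⟩ := hx
  obtain ⟨hT0, hTF⟩ := T_spec h h' hx0 hF
  have hTF1 : F ν (T μ ν x) < 1 := by rw [hTF]; exact hF
  have d1 := (T_deriv h h' hx0 hF).log hT0.ne'
  have d2 := Real.hasDerivAt_log hx0.ne'
  have d3 := d1.sub d2
  have hG2 : 0 < G w (ν.withDensity (Ae ψ ν)) (T μ ν x) := by
    unfold G
    have := h'.I_pos hT0 hTF1
    positivity
  refine d3.congr_deriv ?_
  rw [fd_eq hx0, fd_eq hT0]
  field_simp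

/-- `Ξ - M` is monotone on the region -/
lemma XiM_mono (hψ : ∀ k, 0 ≤ ψ k) (hw : 0 < w) (hμ : IsSolution w ψ μ) (hν : IsSolution w ψ ν) :
    MonotoneOn (fun x => (∫ z in Iic x, gg ψ μ ν z ∂μ) - K ψ μ ν x * Real.arctan (D μ ν x)) (Reg μ) := by
  have h := toRel hw hμ
  have h' := toRel hw hν
  have := hμ.prob
  have := hν.prob
  have hop := Reg_open h
  -- derivative at each point
  have hder : ∀ x ∈ Reg μ, ∃ d : ℝ, 0 ≤ d ∧ HasDerivAt (fun x => (∫ z in Iic x, gg ψ μ ν z ∂μ) -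
      K ψ μ ν x * Real.arctan (D μ ν x)) d x := by
    intro x hx
    have hx' := hx
    obtain ⟨hx0, hF⟩ := hx'
    obtain ⟨hT0, hTF⟩ := T_spec h h' hx0 hF
    have hTF1 : F ν (T μ ν x) < 1 := by rw [hTF]; exact hF
    have dD := D_deriv hw hμ hν hx
    have dK := K_deriv hψ hw hμ hν hx
    have hgc : ContinuousAt (gg ψ μ ν) x := by
      unfold gg
      have c1 := Ar_cont hψ hw hμ hx0 hF
      have c2 : ContinuousAt (fun x => Ar ψ ν (T μ ν x)) x :=
        ContinuousAt.comp (g := Ar ψ ν) (f := T μ ν) (Ar_cont hψ hw hν hT0 hTF1) (T_cont h h' hx0 hF)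
      have c3 : ContinuousAt (fun x => Real.arctan (D μ ν x)) x :=
        Real.continuous_arctan.continuousAt.comp dD.continuousAt
      exact (c1.sub c2).mul c3
    have dXi := deriv_int (h.F_deriv hx0) (gg_integrable hψ hw hμ hν) hgc
    have dA := (Real.hasDerivAt_arctan (D μ ν x)).comp x dD
    have dM := dK.mul dA
    have dtot := dXi.sub dM
    have hG2 : 0 < G w (ν.withDensity (Ae ψ ν)) (T μ ν x) := by
      unfold G
      have := h'.I_pos hT0 hTF1
      positivity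
    refine ⟨_, ?_, dtot⟩
    rw [K_eq hψ hw hμ hν hx]
    set G1 := G w (μ.withDensity (Ae ψ μ)) x
    set G2 := G w (ν.withDensity (Ae ψ ν)) (T μ ν x)
    have hkey : 0 ≤ (G1 - G2) ^ 2 / (x * G2) * (1 / (1 + D μ ν x ^ 2)) := by positivity
    simp only [gg, Function.comp]
    have e1 : (Ar ψ μ x - Ar ψ ν (T μ ν x)) * Real.arctan (D μ ν x) * fd w (μ.withDensity (Ae ψ μ)) x -
        ((Ar ψ μ x - Ar ψ ν (T μ ν x)) * fd w (μ.withDensity (Ae ψ μ)) x * Real.arctan (D μ ν x) +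
          (G2 - G1) * (1 / (1 + D μ ν x ^ 2) * ((G1 - G2) / (x * G2)))) =
        (G1 - G2) ^ 2 / (x * G2) * (1 / (1 + D μ ν x ^ 2)) := by
      ring
    rw [e1]
    exact hkey
  refine monotoneOn_of_deriv_nonneg (Reg_convex h) ?_ ?_ ?_
  · intro x hx
    obtain ⟨d, -, hd⟩ := hder x hx
    exact hd.continuousAt.continuousWithinAt
  · intro x hx
    rw [hop.interior_eq] at hx
    obtain ⟨d, -, hd⟩ := hder x hx
    exact hd.differentiableAt.differentiableWithinAt
  · intro x hx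
    rw [hop.interior_eq] at hx
    obtain ⟨d, h0, hd⟩ := hder x hx
    rw [hd.deriv]; exact h0

/-- **the key inequality** -/
theorem key (hψ : ∀ k, 0 ≤ ψ k) (hw : 0 < w) (hμ : IsSolution w ψ μ) (hν : IsSolution w ψ ν) :
    0 ≤ ∫ x, gg ψ μ ν x ∂μ := by
  have h := toRel hw hμ
  have h' := toRel hw hν
  have := hμ.prob
  have := hν.prob
  -- sequences
  set a : ℕ → ℝ := fun n => Q μ (1 / ((n : ℝ) + 2)) with ha
  set b : ℕ → ℝ := fun n => Q μ (1 - 1 / ((n : ℝ) + 2)) with hb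
  have hn2 : ∀ n : ℕ, 0 < 1 / ((n : ℝ) + 2) ∧ 1 / ((n : ℝ) + 2) ≤ 1 / 2 := by
    intro n
    have hn : (0:ℝ) ≤ n := Nat.cast_nonneg n
    constructor
    · positivity
    · exact one_div_le_one_div_of_le (by norm_num) (by linarith)
  have hA : ∀ n, 0 < a n ∧ F μ (a n) = 1 / ((n : ℝ) + 2) := fun n =>
    h.Q_spec ⟨(hn2 n).1, by linarith [(hn2 n).2]⟩
  have hB : ∀ n, 0 < b n ∧ F μ (b n) = 1 - 1 / ((n : ℝ) + 2) := fun n =>
    h.Q_spec ⟨by linarith [(hn2 n).2], by linarith [(hn2 n).1]⟩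
  have hlim0 : Tendsto (fun n : ℕ => 1 / ((n : ℝ) + 2)) atTop (𝓝 0) := by
    have h1 : Tendsto (fun n : ℕ => (n : ℝ) + 2) atTop atTop :=
      tendsto_atTop_add_const_right _ _ tendsto_natCast_atTop_atTop
    refine h1.inv_tendsto_atTop.congr (fun n => ?_)
    simp
  have hAr : ∀ n, a n ∈ Reg μ := fun n => ⟨(hA n).1, by rw [(hA n).2]; linarith [(hn2 n).2]⟩
  have hBr : ∀ n, b n ∈ Reg μ := fun n => ⟨(hB n).1, by rw [(hB n).2]; linarith [(hn2 n).1]⟩
  have hab : ∀ n, a n ≤ b n := by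
    intro n
    rw [← h.F_le_iff (hBr n).1 (hBr n).2, (hA n).2, (hB n).2]
    linarith [(hn2 n).2]
  -- measures of the tails
  have mA : Tendsto (fun n => μ (Iic (a n))) atTop (𝓝 0) := by
    have h1 : (fun n => μ (Iic (a n))) = fun n : ℕ => ENNReal.ofReal (1 / ((n : ℝ) + 2)) := by
      funext n
      rw [← (hA n).2, F, Measure.real, ENNReal.ofReal_toReal (measure_ne_top _ _)]
    rw [h1]
    have := ENNReal.tendsto_ofReal hlim0
    simpa using this
  have mAT : Tendsto (fun n => ν (Iic (T μ ν (a n)))) atTop (𝓝 0) := by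
    have h1 : (fun n => ν (Iic (T μ ν (a n)))) = fun n : ℕ => ENNReal.ofReal (1 / ((n : ℝ) + 2)) := by
      funext n
      rw [← (hA n).2, ← (T_spec h h' (hAr n).1 (hAr n).2).2, F, Measure.real,
        ENNReal.ofReal_toReal (measure_ne_top _ _)]
    rw [h1]
    have := ENNReal.tendsto_ofReal hlim0
    simpa using this
  have mB : Tendsto (fun n => μ (Iic (b n))ᶜ) atTop (𝓝 0) := by
    have h1 : (fun n => μ (Iic (b n))ᶜ) = fun n : ℕ => ENNReal.ofReal (1 / ((n : ℝ) + 2)) := by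
      funext n
      have h2 : μ.real (Iic (b n))ᶜ = 1 / ((n : ℝ) + 2) := by
        rw [probReal_compl_eq_one_sub measurableSet_Iic]
        have : μ.real (Iic (b n)) = 1 - 1 / ((n : ℝ) + 2) := (hB n).2
        rw [this]; ring
      rw [← h2, Measure.real, ENNReal.ofReal_toReal (measure_ne_top _ _)]
    rw [h1]
    have := ENNReal.tendsto_ofReal hlim0
    simpa using this
  have mBT : Tendsto (fun n => ν (Iic (T μ ν (b n)))ᶜ) atTop (𝓝 0) := by
    have h1 : (fun n => ν (Iic (T μ ν (b n)))ᶜ) = fun n : ℕ => ENNReal.ofReal (1 / ((n : ℝ) + 2)) := by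
      funext n
      have h2 : ν.real (Iic (T μ ν (b n)))ᶜ = 1 / ((n : ℝ) + 2) := by
        rw [probReal_compl_eq_one_sub measurableSet_Iic]
        have h3 : ν.real (Iic (T μ ν (b n))) = μ.real (Iic (b n)) :=
          (T_spec h h' (hBr n).1 (hBr n).2).2
        have : μ.real (Iic (b n)) = 1 - 1 / ((n : ℝ) + 2) := (hB n).2
        rw [h3, this]; ring
      rw [← h2, Measure.real, ENNReal.ofReal_toReal (measure_ne_top _ _)]
    rw [h1]
    have := ENNReal.tendsto_ofReal hlim0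
    simpa using this
  have hg := gg_integrable hψ hw hμ hν
  obtain ⟨i1, o1⟩ := Ar_integrable hψ hw hμ
  obtain ⟨i2, o2⟩ := Ar_integrable hψ hw hν
  -- limits at a
  have lA1 : Tendsto (fun n => ∫ z in Iic (a n), gg ψ μ ν z ∂μ) atTop (𝓝 0) :=
    hg.tendsto_setIntegral_nhds_zero mA
  have lKA : Tendsto (fun n => K ψ μ ν (a n)) atTop (𝓝 0) := by
    have h1 := (i1.tendsto_setIntegral_nhds_zero mA).sub (i2.tendsto_setIntegral_nhds_zero mAT)
    rw [sub_zero] at h1
    exact h1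
  have compl_int : ∀ (ρ : Measure ℝ) (f : ℝ → ℝ) (x : ℝ), Integrable f ρ →
      ∫ z in Iic x, f z ∂ρ = ∫ z, f z ∂ρ - ∫ z in (Iic x)ᶜ, f z ∂ρ := by
    intro ρ f x hf
    have := integral_add_compl (measurableSet_Iic (a := x)) hf
    linarith
  have lB1 : Tendsto (fun n => ∫ z in Iic (b n), gg ψ μ ν z ∂μ) atTop (𝓝 (∫ z, gg ψ μ ν z ∂μ)) := by
    have h1 := (tendsto_const_nhds (x := ∫ z, gg ψ μ ν z ∂μ)).sub (hg.tendsto_setIntegral_nhds_zero mB)
    rw [sub_zero] at h1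
    refine h1.congr (fun n => ?_)
    rw [compl_int μ _ _ hg]
  have lKB : Tendsto (fun n => K ψ μ ν (b n)) atTop (𝓝 0) := by
    have h1 := ((tendsto_const_nhds (x := (1:ℝ))).sub (i1.tendsto_setIntegral_nhds_zero mB)).sub
      ((tendsto_const_nhds (x := (1:ℝ))).sub (i2.tendsto_setIntegral_nhds_zero mBT))
    simp only [sub_zero, sub_self] at h1
    refine h1.congr (fun n => ?_)
    unfold K
    rw [compl_int μ _ _ i1, compl_int ν _ _ i2, o1, o2]
  have bdd : ∀ (u : ℕ → ℝ), Tendsto (fun n => K ψ μ ν (u n)) atTop (𝓝 0) →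
      Tendsto (fun n => K ψ μ ν (u n) * Real.arctan (D μ ν (u n))) atTop (𝓝 0) := by
    intro u hu
    have h1 : Tendsto (fun n => |K ψ μ ν (u n)| * 2) atTop (𝓝 0) := by
      have := (hu.abs).mul_const 2
      simpa using this
    refine squeeze_zero_norm (fun n => ?_) h1
    rw [Real.norm_eq_abs, abs_mul]
    exact mul_le_mul_of_nonneg_left (arctan_abs _) (abs_nonneg _)
  have limA := lA1.sub (bdd a lKA)
  have limB := lB1.sub (bdd b lKB)
  rw [sub_zero] at limA limB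
  refine le_of_tendsto_of_tendsto' limA limB (fun n => ?_)
  exact XiM_mono hψ hw hμ hν (hAr n) (hBr n) (hab n)

end

end Pool.Agent.Q216.PB
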