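import Pool.Agent.Q216.PB.Ineq

set_option autoImplicit false

/-!
# Uniqueness up to scaling
-/

namespace Pool.Agent.Q216.PB

open MeasureTheory Set Filter Topology
open scoped ENNReal

section

variable {w : ℝ} {ψ : ℕ → ℝ} {μ ν : Measure ℝ}

lemma mom_pos (hμ : IsSolution w ψ μ) {k : ℕ} (hk : 0 < ψ k) : 0 < ∫ x, x ^ k ∂μ := by
  have := hμ.prob
  have hint := hμ.moments k hk
  have hae : 0 ≤ᵐ[μ] fun x : ℝ => x ^ k := by
    filter_upwards [aepos hμ] with x hx
    simp only [Pi.zero_apply]; positivity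
  rw [integral_pos_iff_support_of_nonneg_ae hae hint]
  have h1 : μ (Function.support fun x : ℝ => x ^ k)ᶜ = 0 := by
    have h2 : ∀ᵐ x ∂μ, x ∈ (Function.support fun x : ℝ => x ^ k) := by
      filter_upwards [aepos hμ] with x hx
      rw [Function.mem_support]; positivity
    exact mem_ae_iff.1 h2
  have h3 : μ (Function.support fun x : ℝ => x ^ k) + μ (Function.support fun x : ℝ => x ^ k)ᶜ = 1 := by
    rw [measure_add_measure_compl]
    · exact measure_univ
    · exact (by fun_prop : Measurable (fun x : ℝ => x ^ k)) (measurableSet_singleton 0).compl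
  rw [h1, add_zero] at h3
  rw [h3]; exact one_pos

lemma int_co (hψ : ∀ k, 0 ≤ ψ k) (hμ : IsSolution w ψ μ) (k : ℕ) :
    Integrable (fun x : ℝ => co ψ μ k * x ^ k) μ ∧ ∫ x, co ψ μ k * x ^ k ∂μ = ψ k := by
  rcases eq_or_lt_of_le (hψ k) with h | h
  · have : co ψ μ k = 0 := by unfold co; rw [← h, zero_div]
    rw [this, ← h]; simp
  · have hm := mom_pos hμ h
    refine ⟨(hμ.moments k h).const_mul _, ?_⟩
    rw [integral_const_mul]
    unfold co
    field_simp

/-- **Uniqueness of the solution up to scaling.** -/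
theorem unique (hw : 0 < w) (hψ : ∀ k, 0 ≤ ψ k) (hψ0 : ψ 0 = 0) (hψ1 : HasSum ψ 1)
    (hμ : IsSolution w ψ μ) (hν : IsSolution w ψ ν) :
    ∃ c : ℝ, 0 < c ∧ ν = μ.map (fun x => c * x) := by
  have h := toRel hw hμ
  have h' := toRel hw hν
  have := hμ.prob
  have := hν.prob
  have hreg := ae_region hw hμ
  have hreg' := ae_region hw hν
  have hTm := T_meas h h'
  have hDm : Measurable (fun x => Real.arctan (D μ ν x)) := by
    unfold D
    exact Real.measurable_arctan.comp ((Real.measurable_log.comp hTm).sub Real.measurable_log)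
  -- the terms
  set H : ℕ → ℝ → ℝ := fun k x => (co ψ μ k * x ^ k - co ψ ν k * (T μ ν x) ^ k) * Real.arctan (D μ ν x) with hH
  have hTint : ∀ k, Integrable (fun x => co ψ ν k * (T μ ν x) ^ k) μ := fun k =>
    integrable_T h h' hreg (int_co hψ hν k).1
  have hTval : ∀ k, ∫ x, co ψ ν k * (T μ ν x) ^ k ∂μ = ψ k := by
    intro k
    rw [← (int_co hψ hν k).2]
    exact int_T h h' hreg (f := fun y => co ψ ν k * y ^ k) (by fun_prop)
  have hdiff : ∀ k, Integrable (fun x => co ψ μ k * x ^ k - co ψ ν k * (T μ ν x) ^ k) μ := fun k =>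
    (int_co hψ hμ k).1.sub (hTint k)
  have hdiff0 : ∀ k, ∫ x, (co ψ μ k * x ^ k - co ψ ν k * (T μ ν x) ^ k) ∂μ = 0 := by
    intro k
    rw [integral_sub (int_co hψ hμ k).1 (hTint k), (int_co hψ hμ k).2, hTval k, sub_self]
  have hHint : ∀ k, Integrable (H k) μ := by
    intro k
    refine Integrable.mono' ((hdiff k).norm.const_mul 2) ?_ ?_
    · exact ((hdiff k).aestronglyMeasurable.mul hDm.aestronglyMeasurable)
    · refine Eventually.of_forall (fun x => ?_)
      simp only [hH]
      rw [norm_mul, mul_comm]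
      exact mul_le_mul_of_nonneg_right (arctan_abs _) (norm_nonneg _)
  have hTpos : ∀ᵐ x ∂μ, 0 < T μ ν x := by
    filter_upwards [hreg] with x hx
    exact (T_spec h h' hx.1 hx.2).1
  have hnorm : ∀ k, ∫ x, ‖H k x‖ ∂μ ≤ 4 * ψ k := by
    intro k
    have h1 : ∫ x, ‖H k x‖ ∂μ ≤ ∫ x, 2 * (co ψ μ k * x ^ k + co ψ ν k * (T μ ν x) ^ k) ∂μ := by
      refine integral_mono_ae (hHint k).norm (((int_co hψ hμ k).1.add (hTint k)).const_mul 2) ?_
      filter_upwards [aepos hμ, hTpos] with x hx hTx
      simp only [hH]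
      rw [norm_mul, mul_comm]
      refine mul_le_mul (arctan_abs _) ?_ (norm_nonneg _) (by norm_num)
      have a1 : 0 ≤ co ψ μ k * x ^ k := mul_nonneg (co_nonneg hψ hμ k) (by positivity)
      have a2 : 0 ≤ co ψ ν k * (T μ ν x) ^ k := mul_nonneg (co_nonneg hψ hν k) (by positivity)
      rw [Real.norm_eq_abs, abs_le]
      constructor <;> linarith
    rw [integral_const_mul, integral_add (int_co hψ hμ k).1 (hTint k), (int_co hψ hμ k).2, hTval k] at h1
    linarith
  have hsumm : Summable (fun k => ∫ x, ‖H k x‖ ∂μ) :=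
    Summable.of_nonneg_of_le (fun k => integral_nonneg (fun x => norm_nonneg _)) hnorm
      (hψ1.summable.mul_left 4)
  have hhs := hasSum_integral_of_summable_integral_norm hHint hsumm
  have htot : ∫ x, ∑' k, H k x ∂μ = ∫ x, gg ψ μ ν x ∂μ := by
    refine integral_congr_ae ?_
    filter_upwards [hreg] with x hx
    obtain ⟨hT0, hTF⟩ := T_spec h h' hx.1 hx.2
    have hTF1 : F ν (T μ ν x) < 1 := by rw [hTF]; exact hx.2
    have s1 := summable_at hψ hw hμ hx.1 hx.2
    have s2 := summable_at hψ hw hν hT0 hTF1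
    simp only [hH]
    rw [tsum_mul_right, s1.tsum_sub s2]
    rfl
  rw [htot] at hhs
  have hkey := key hψ hw hμ hν
  -- each term is nonpositive
  set cc : ℕ → ℝ := fun k => (Real.log (∫ x, x ^ k ∂ν) - Real.log (∫ x, x ^ k ∂μ)) / k with hcc
  have hpt : ∀ k, 0 < ψ k → ∀ᵐ x ∂μ,
      (co ψ μ k * x ^ k - co ψ ν k * (T μ ν x) ^ k) * (Real.arctan (D μ ν x) - Real.arctan (cc k)) ≤ 0 ∧
      ((co ψ μ k * x ^ k - co ψ ν k * (T μ ν x) ^ k) * (Real.arctan (D μ ν x) - Real.arctan (cc k)) = 0 →
        D μ ν x = cc k) := by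
    intro k hk
    have hk0 : k ≠ 0 := by
      intro h0; rw [h0, hψ0] at hk; exact lt_irrefl _ hk
    have hkpos : (0:ℝ) < k := by exact_mod_cast Nat.pos_of_ne_zero hk0
    have hm := mom_pos hμ hk
    have hn := mom_pos hν hk
    filter_upwards [aepos hμ, hTpos] with x hx hTx
    set m := ∫ x, x ^ k ∂μ with hmdef
    set n := ∫ x, x ^ k ∂ν with hndef
    -- X̂ = x^k/m, Ŷ = T^k/n
    have hX : co ψ μ k * x ^ k = ψ k * Real.exp (k * Real.log x - Real.log m) := by
      rw [Real.exp_sub, Real.exp_log hm, mul_comm (k : ℝ), Real.exp_mul, Real.exp_log hx, Real.rpow_natCast]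
      unfold co; rw [← hmdef]; ring
    have hY : co ψ ν k * (T μ ν x) ^ k = ψ k * Real.exp (k * Real.log (T μ ν x) - Real.log n) := by
      rw [Real.exp_sub, Real.exp_log hn, mul_comm (k : ℝ), Real.exp_mul, Real.exp_log hTx, Real.rpow_natCast]
      unfold co; rw [← hndef]; ring
    rw [hX, hY]
    have hck : (k : ℝ) * cc k = Real.log n - Real.log m := by
      simp only [hcc]; field_simp
      rw [hmdef, hndef]
    rcases lt_trichotomy (D μ ν x) (cc k) with h1 | h1 | h1
    · -- D < c : X̂ > Ŷ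
      have h2 : Real.arctan (D μ ν x) < Real.arctan (cc k) := Real.arctan_strictMono h1
      have h3 : k * Real.log (T μ ν x) - Real.log n < k * Real.log x - Real.log m := by
        have : (k : ℝ) * D μ ν x < k * cc k := mul_lt_mul_of_pos_left h1 hkpos
        rw [hck] at this
        unfold D at this
        linarith
      have h4 := Real.exp_lt_exp.2 h3
      have h5 : 0 < ψ k * Real.exp (k * Real.log x - Real.log m) - ψ k * Real.exp (k * Real.log (T μ ν x) - Real.log n) := by
        nlinarith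
      have h6 := mul_neg_of_pos_of_neg h5 (sub_neg.2 h2)
      exact ⟨h6.le, fun h7 => absurd h7 h6.ne⟩
    · rw [h1, sub_self, mul_zero]
      exact ⟨le_rfl, fun _ => rfl⟩
    · have h2 : Real.arctan (cc k) < Real.arctan (D μ ν x) := Real.arctan_strictMono h1
      have h3 : k * Real.log x - Real.log m < k * Real.log (T μ ν x) - Real.log n := by
        have : (k : ℝ) * cc k < k * D μ ν x := mul_lt_mul_of_pos_left h1 hkpos
        rw [hck] at this
        unfold D at this
        linarith
      have h4 := Real.exp_lt_exp.2 h3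
      have h5 : ψ k * Real.exp (k * Real.log x - Real.log m) - ψ k * Real.exp (k * Real.log (T μ ν x) - Real.log n) < 0 := by
        nlinarith
      have h6 := mul_neg_of_neg_of_pos h5 (sub_pos.2 h2)
      exact ⟨h6.le, fun h7 => absurd h7 h6.ne⟩
  have hval : ∀ k, ∫ x, H k x ∂μ = ∫ x, (co ψ μ k * x ^ k - co ψ ν k * (T μ ν x) ^ k) *
      (Real.arctan (D μ ν x) - Real.arctan (cc k)) ∂μ := by
    intro k
    have e : ∀ x, (co ψ μ k * x ^ k - co ψ ν k * (T μ ν x) ^ k) *
        (Real.arctan (D μ ν x) - Real.arctan (cc k)) = H k x -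
        (co ψ μ k * x ^ k - co ψ ν k * (T μ ν x) ^ k) * Real.arctan (cc k) := by
      intro x; simp only [hH]; ring
    simp only [e]
    rw [integral_sub (hHint k) ((hdiff k).mul_const _), integral_mul_const, hdiff0, zero_mul, sub_zero]
  have hnonpos : ∀ k, ∫ x, H k x ∂μ ≤ 0 := by
    intro k
    rcases eq_or_lt_of_le (hψ k) with h1 | h1
    · have : ∀ x, H k x = 0 := by
        intro x; simp only [hH]
        unfold co; rw [← h1]; simp
      simp [this]
    · rw [hval]
      refine integral_nonpos_of_ae ?_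
      filter_upwards [hpt k h1] with x hx
      exact hx.1
  have hzero : ∀ k, ∫ x, H k x ∂μ = 0 := by
    intro k
    have h1 : ∫ x, gg ψ μ ν x ∂μ ≤ ∫ x, H k x ∂μ := by
      have h2 := hhs.neg
      have h3 : -(∫ x, H k x ∂μ) ≤ -(∫ x, gg ψ μ ν x ∂μ) :=
        le_hasSum h2 k (fun j _ => by linarith [hnonpos j])
      linarith
    exact le_antisymm (hnonpos k) (hkey.trans h1)
  -- choose k with ψ k > 0
  obtain ⟨k, hk⟩ : ∃ k, 0 < ψ k := by
    by_contra hcon
    push Not at hcon
    have : ψ = fun _ => 0 := funext (fun k => le_antisymm (hcon k) (hψ k))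
    rw [this] at hψ1
    have := hψ1.unique hasSum_zero
    norm_num at this
  have h0 := hzero k
  rw [hval] at h0
  have hint : Integrable (fun x => (co ψ μ k * x ^ k - co ψ ν k * (T μ ν x) ^ k) *
      (Real.arctan (D μ ν x) - Real.arctan (cc k))) μ := by
    have e : (fun x => (co ψ μ k * x ^ k - co ψ ν k * (T μ ν x) ^ k) *
        (Real.arctan (D μ ν x) - Real.arctan (cc k))) = fun x => H k x -
        (co ψ μ k * x ^ k - co ψ ν k * (T μ ν x) ^ k) * Real.arctan (cc k) := by
      funext x; simp only [hH]; ring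
    rw [e]
    exact (hHint k).sub ((hdiff k).mul_const _)
  have h1 : ∫ x, -((co ψ μ k * x ^ k - co ψ ν k * (T μ ν x) ^ k) *
      (Real.arctan (D μ ν x) - Real.arctan (cc k))) ∂μ = 0 := by
    rw [integral_neg, h0, neg_zero]
  have h2 : (fun x => -((co ψ μ k * x ^ k - co ψ ν k * (T μ ν x) ^ k) *
      (Real.arctan (D μ ν x) - Real.arctan (cc k)))) =ᵐ[μ] 0 := by
    refine (integral_eq_zero_iff_of_nonneg_ae ?_ hint.neg).1 h1
    filter_upwards [hpt k hk] with x hx
    simp only [Pi.zero_apply, Pi.neg_apply]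
    linarith [hx.1]
  have hD : ∀ᵐ x ∂μ, T μ ν x = Real.exp (cc k) * x := by
    filter_upwards [h2, hpt k hk, aepos hμ, hTpos] with x hx1 hx2 hx3 hx4
    have h3 := hx2.2 (by
      have : -((co ψ μ k * x ^ k - co ψ ν k * (T μ ν x) ^ k) *
        (Real.arctan (D μ ν x) - Real.arctan (cc k))) = 0 := hx1
      linarith)
    unfold D at h3
    have h4 : Real.log (T μ ν x) = cc k + Real.log x := by linarith
    rw [← Real.exp_log hx4, h4, Real.exp_add, Real.exp_log hx3]
  refine ⟨Real.exp (cc k), Real.exp_pos _, ?_⟩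
  rw [← T_map h h' hreg]
  exact Measure.map_congr hD

end

end Pool.Agent.Q216.PB
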