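import Pool.Agent.Q216.PB.Cdf

set_option autoImplicit false

/-!
# From the fixed point equation to the distribution functions
-/

namespace Pool.Agent.Q216.PB

open MeasureTheory Set Filter Topology
open scoped ENNReal

lemma betaLaw_univ {w : ℝ} (hw : 0 < w) : betaLaw w univ = 1 := by
  have h1 := betaLaw_Iic hw (y := 1) one_pos
  rw [Real.one_rpow, min_self, ENNReal.ofReal_one] at h1
  have h2 : betaLaw w (Ioi 1) = 0 := by
    unfold betaLaw
    rw [withDensity_apply _ measurableSet_Ioi]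
    rw [setLIntegral_congr_fun (g := fun _ => 0) measurableSet_Ioi]
    · simp
    · intro v hv
      have : ¬ (0 < v ∧ v < 1) := by
        intro h
        have : (1:ℝ) < v := hv
        linarith [h.2]
      simp only [if_neg this]
  have h3 : (univ : Set ℝ) = Iic 1 ∪ Ioi 1 := Iic_union_Ioi.symm
  rw [h3, measure_union (by
    rw [Set.disjoint_left]; intro v h1 h2
    exact absurd (mem_Ioi.1 h2) (not_lt.2 (mem_Iic.1 h1))) measurableSet_Ioi, h1, h2, add_zero]

lemma toRel {w : ℝ} (hw : 0 < w) {ψ : ℕ → ℝ} {μ : Measure ℝ} (h : IsSolution w ψ μ) :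
    Rel w μ (μ.withDensity (Ae ψ μ)) := by
  have hp := h.prob
  have hfix := h.fixed
  rw [powerBias_eq] at hfix
  set σ : Measure ℝ := μ.withDensity (Ae ψ μ) with hσ
  have hsf : SFinite σ := by rw [hσ]; infer_instance
  have hsβ : SFinite (betaLaw w) := by unfold betaLaw; infer_instance
  have hac : σ ≪ μ := withDensity_absolutelyContinuous _ _
  have hmul : Measurable (fun p : ℝ × ℝ => p.1 * p.2) := by fun_prop
  have hmass : σ univ = 1 := by
    have h1 : μ univ = 1 := measure_univ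
    rw [hfix, Measure.map_apply hmul MeasurableSet.univ, preimage_univ] at h1
    rw [← univ_prod_univ, Measure.prod_prod, betaLaw_univ hw, one_mul] at h1
    exact h1
  have hpσ : IsProbabilityMeasure σ := ⟨hmass⟩
  have hpos : ∀ᵐ z ∂σ, 0 < z := by
    have := hac h.pos
    rw [ae_iff]
    convert this using 2
    ext z; simp
  refine ⟨hw, hp, hpσ, h.pos, hac, ?_⟩
  intro x hx
  have h1 : μ (Iic x) = ∫⁻ z, ENNReal.ofReal (min 1 ((x / z) ^ w)) ∂σ := by
    conv_lhs => rw [hfix]
    rw [Measure.map_apply hmul measurableSet_Iic, Measure.prod_apply_symm (hmul measurableSet_Iic)]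
    refine lintegral_congr_ae ?_
    filter_upwards [hpos] with z hz
    have : (fun v : ℝ => (v, z)) ⁻¹' ((fun p : ℝ × ℝ => p.1 * p.2) ⁻¹' Iic x) = Iic (x / z) := by
      ext v
      simp only [mem_preimage, mem_Iic]
      rw [le_div_iff₀ hz]
    rw [this, betaLaw_Iic hw (by positivity)]
  rw [Measure.real, h1, integral_eq_lintegral_of_nonneg_ae]
  · filter_upwards [hpos] with z hz
    have : 0 ≤ (x / z) ^ w := by positivity
    simp only [Pi.zero_apply]
    exact le_min zero_le_one this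
  · exact (Measurable.min measurable_const (by fun_prop)).aestronglyMeasurable

/-! ### regularity of `A` -/

section

variable {w : ℝ} {ψ : ℕ → ℝ} {μ : Measure ℝ}

lemma co_nonneg (hψ : ∀ k, 0 ≤ ψ k) (h : IsSolution w ψ μ) (k : ℕ) : 0 ≤ co ψ μ k := by
  unfold co
  refine div_nonneg (hψ k) (integral_nonneg_of_ae ?_)
  have := h.pos
  have hae : ∀ᵐ z ∂μ, 0 < z := by
    rw [ae_iff]
    convert this using 2
    ext z; simp
  filter_upwards [hae] with z hz
  simp only [Pi.zero_apply]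
  positivity

lemma aepos (h : IsSolution w ψ μ) : ∀ᵐ z ∂μ, 0 < z := by
  have := h.pos
  rw [ae_iff]
  convert this using 2
  ext z; simp

/-- on `{F < 1}` the series `A` converges, also at some larger point -/
lemma exists_summable (hψ : ∀ k, 0 ≤ ψ k) (hw : 0 < w) (h : IsSolution w ψ μ) {x : ℝ} (hx : 0 < x)
    (hF : μ.real (Iic x) < 1) : ∃ y, x < y ∧ Summable (fun k => co ψ μ k * y ^ k) := by
  have hp := h.prob
  have hrel := toRel hw h
  have hfin : ∫⁻ z, Ae ψ μ z ∂μ ≠ ∞ := by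
    have := hrel.pσ.measure_univ
    rw [withDensity_apply _ MeasurableSet.univ, Measure.restrict_univ] at this
    rw [this]; exact ENNReal.one_ne_top
  have hae : ∀ᵐ z ∂μ, Ae ψ μ z < ∞ := ae_lt_top (Ae_measurable ψ μ) hfin
  have hpos : μ (Ioi x) ≠ 0 := by
    intro h0
    have h5 : μ.real (Iic x) + μ.real (Iic x)ᶜ = 1 := probReal_add_probReal_compl measurableSet_Iic
    rw [compl_Iic] at h5
    have : μ.real (Ioi x) = 0 := by rw [Measure.real, h0]; rfl
    linarith
  have hex : ∃ y ∈ Ioi x, Ae ψ μ y < ∞ := by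
    by_contra hcon
    push Not at hcon
    apply hpos
    refine measure_mono_null (t := {z | ¬ Ae ψ μ z < ∞}) ?_ (ae_iff.1 hae)
    intro z hz
    simp only [mem_setOf_eq, not_lt]
    exact hcon z hz
  obtain ⟨y, hy, hy2⟩ := hex
  refine ⟨y, hy, ?_⟩
  have hy0 : 0 < y := hx.trans hy
  have h1 : ∀ k, ENNReal.ofReal (co ψ μ k) * ENNReal.ofReal (y ^ k) = ENNReal.ofReal (co ψ μ k * y ^ k) := by
    intro k; rw [ENNReal.ofReal_mul (co_nonneg hψ h k)]
  unfold Ae at hy2
  simp only [h1] at hy2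
  have h2 := ENNReal.summable_toReal hy2.ne
  refine h2.congr (fun k => ?_)
  rw [ENNReal.toReal_ofReal (mul_nonneg (co_nonneg hψ h k) (by positivity))]

lemma summable_at (hψ : ∀ k, 0 ≤ ψ k) (hw : 0 < w) (h : IsSolution w ψ μ) {x : ℝ} (hx : 0 < x)
    (hF : μ.real (Iic x) < 1) : Summable (fun k => co ψ μ k * x ^ k) := by
  obtain ⟨y, hy, hs⟩ := exists_summable hψ hw h hx hF
  refine Summable.of_nonneg_of_le (fun k => mul_nonneg (co_nonneg hψ h k) (by positivity))
    (fun k => ?_) hs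
  exact mul_le_mul_of_nonneg_left (pow_le_pow_left₀ hx.le hy.le k) (co_nonneg hψ h k)

lemma Ar_cont (hψ : ∀ k, 0 ≤ ψ k) (hw : 0 < w) (h : IsSolution w ψ μ) {x : ℝ} (hx : 0 < x)
    (hF : μ.real (Iic x) < 1) : ContinuousAt (Ar ψ μ) x := by
  obtain ⟨y, hy, hs⟩ := exists_summable hψ hw h hx hF
  have h1 : ContinuousOn (Ar ψ μ) (Ioo 0 y) := by
    unfold Ar
    refine continuousOn_tsum (u := fun k => co ψ μ k * y ^ k) (fun k => by fun_prop) hs ?_
    intro k z hz
    rw [Real.norm_eq_abs, abs_mul, abs_of_nonneg (co_nonneg hψ h k), abs_of_nonneg (pow_nonneg hz.1.le k)]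
    exact mul_le_mul_of_nonneg_left (pow_le_pow_left₀ hz.1.le hz.2.le k) (co_nonneg hψ h k)
  exact h1.continuousAt (Ioo_mem_nhds hx hy)

lemma Ar_nonneg (hψ : ∀ k, 0 ≤ ψ k) (h : IsSolution w ψ μ) {x : ℝ} (hx : 0 < x) : 0 ≤ Ar ψ μ x :=
  tsum_nonneg (fun k => mul_nonneg (co_nonneg hψ h k) (by positivity))

/-- `Ae = ofReal Ar` on `{F < 1}` -/
lemma Ae_eq (hψ : ∀ k, 0 ≤ ψ k) (hw : 0 < w) (h : IsSolution w ψ μ) {x : ℝ} (hx : 0 < x)
    (hF : μ.real (Iic x) < 1) : Ae ψ μ x = ENNReal.ofReal (Ar ψ μ x) := by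
  unfold Ae Ar
  rw [ENNReal.ofReal_tsum_of_nonneg (fun k => mul_nonneg (co_nonneg hψ h k) (by positivity))
    (summable_at hψ hw h hx hF)]
  congr 1
  funext k
  rw [ENNReal.ofReal_mul (co_nonneg hψ h k)]

/-- almost surely `0 < x` and `F(x) < 1` -/
lemma ae_region (hw : 0 < w) (h : IsSolution w ψ μ) : ∀ᵐ x ∂μ, 0 < x ∧ μ.real (Iic x) < 1 := by
  have hp := h.prob
  have hrel := toRel hw h
  -- the set {x > 0, F x = 1}
  have h1 : μ {x | 0 < x ∧ 1 ≤ μ.real (Iic x)} = 0 := by
    by_cases hne : ({x | 0 < x ∧ 1 ≤ μ.real (Iic x)} : Set ℝ).Nonempty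
    · -- infimum
      set R : ℝ := sInf {x | 0 < x ∧ 1 ≤ μ.real (Iic x)} with hR
      have hbdd : BddBelow {x | 0 < x ∧ 1 ≤ μ.real (Iic x)} := ⟨0, fun x hx => hx.1.le⟩
      have hR0 : 0 ≤ R := le_csInf hne (fun x hx => hx.1.le)
      -- F(R) = 1 by right continuity; use F at points of the set: μ(Ioi x) = 0 for x in the set
      have hsub : {x | 0 < x ∧ 1 ≤ μ.real (Iic x)} ⊆ {R} ∩ Ioi 0 ∪ Ioi R := by
        intro x hx
        rcases eq_or_lt_of_le (csInf_le hbdd hx) with h2 | h2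
        · left; exact ⟨by rw [mem_singleton_iff]; exact h2.symm, hx.1⟩
        · right; exact h2
      refine measure_mono_null hsub (measure_union_null ?_ ?_)
      · by_cases hRp : 0 < R
        · exact measure_mono_null inter_subset_left (hrel.noatom hRp)
        · have : ({R} ∩ Ioi 0 : Set ℝ) = ∅ := by
            ext z; simp only [mem_inter_iff, mem_singleton_iff, mem_Ioi, mem_empty_iff_false, iff_false]
            rintro ⟨rfl, h3⟩; exact hRp h3
          rw [this]; exact measure_empty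
      · -- Ioi R = ⋃ Ioi (x_n)
        have h3 : ∀ y, R < y → μ (Ioi y) = 0 := by
          intro y hy
          obtain ⟨x, hx, hxy⟩ := exists_lt_of_csInf_lt hne hy
          have h5 : μ.real (Iic x) + μ.real (Iic x)ᶜ = 1 := probReal_add_probReal_compl measurableSet_Iic
          rw [compl_Iic] at h5
          have h6 : μ.real (Ioi x) = 0 := by
            have := measureReal_nonneg (μ := μ) (s := Ioi x)
            have := hx.2
            linarith
          have h7 : μ (Ioi x) = 0 := (measureReal_eq_zero_iff).1 h6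
          exact measure_mono_null (Ioi_subset_Ioi hxy.le) h7
        have h4 : Ioi R = ⋃ n : ℕ, Ioi (R + 1 / ((n : ℝ) + 1)) := by
          ext z
          simp only [mem_Ioi, mem_iUnion]
          constructor
          · intro hz
            obtain ⟨n, hn⟩ := exists_nat_one_div_lt (sub_pos.2 hz)
            exact ⟨n, by linarith⟩
          · rintro ⟨n, hn⟩
            have : 0 < 1 / ((n : ℝ) + 1) := by positivity
            linarith
        rw [h4]
        refine measure_iUnion_null (fun n => h3 _ ?_)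
        have : 0 < 1 / ((n : ℝ) + 1) := by positivity
        linarith
    · rw [Set.not_nonempty_iff_eq_empty] at hne
      rw [hne]; exact measure_empty
  have h2 : ∀ᵐ x ∂μ, ¬ (0 < x ∧ 1 ≤ μ.real (Iic x)) := by
    rw [ae_iff]; simpa using h1
  filter_upwards [h2, aepos h] with x hx1 hx2
  exact ⟨hx2, by by_contra hcon; exact hx1 ⟨hx2, not_lt.1 hcon⟩⟩

lemma Ar_integrable (hψ : ∀ k, 0 ≤ ψ k) (hw : 0 < w) (h : IsSolution w ψ μ) :
    Integrable (Ar ψ μ) μ ∧ ∫ x, Ar ψ μ x ∂μ = 1 := by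
  have hp := h.prob
  have hrel := toRel hw h
  have hone : ∫⁻ z, Ae ψ μ z ∂μ = 1 := by
    have := hrel.pσ.measure_univ
    rwa [withDensity_apply _ MeasurableSet.univ, Measure.restrict_univ] at this
  have hae : ∀ᵐ x ∂μ, Ar ψ μ x = (Ae ψ μ x).toReal := by
    filter_upwards [ae_region hw h] with x hx
    rw [Ae_eq hψ hw h hx.1 hx.2, ENNReal.toReal_ofReal (Ar_nonneg hψ h hx.1)]
  have h1 : Integrable (fun x => (Ae ψ μ x).toReal) μ :=
    integrable_toReal_of_lintegral_ne_top (Ae_measurable ψ μ).aemeasurable (by rw [hone]; exact ENNReal.one_ne_top)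
  refine ⟨h1.congr (EventuallyEq.symm hae), ?_⟩
  rw [integral_congr_ae hae, integral_toReal (Ae_measurable ψ μ).aemeasurable
    (ae_lt_top (Ae_measurable ψ μ) (by rw [hone]; exact ENNReal.one_ne_top)), hone]
  rfl

/-- `σ(s) = ∫_s A dμ` -/
lemma sigma_eq (hψ : ∀ k, 0 ≤ ψ k) (hw : 0 < w) (h : IsSolution w ψ μ) {s : Set ℝ}
    (hs : MeasurableSet s) : (μ.withDensity (Ae ψ μ)).real s = ∫ x in s, Ar ψ μ x ∂μ := by
  have hp := h.prob
  have hrel := toRel hw h
  have hone : ∫⁻ z, Ae ψ μ z ∂μ = 1 := by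
    have := hrel.pσ.measure_univ
    rwa [withDensity_apply _ MeasurableSet.univ, Measure.restrict_univ] at this
  have hae : ∀ᵐ x ∂(μ.restrict s), Ar ψ μ x = (Ae ψ μ x).toReal := by
    refine ae_restrict_of_ae ?_
    filter_upwards [ae_region hw h] with x hx
    rw [Ae_eq hψ hw h hx.1 hx.2, ENNReal.toReal_ofReal (Ar_nonneg hψ h hx.1)]
  have hle : ∫⁻ z in s, Ae ψ μ z ∂μ ≤ 1 := by
    rw [← hone]; exact setLIntegral_le_lintegral _ _
  rw [integral_congr_ae hae, integral_toReal (Ae_measurable ψ μ).aemeasurable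
    (ae_lt_top (Ae_measurable ψ μ) (ne_top_of_le_ne_top ENNReal.one_ne_top hle)), Measure.real,
    withDensity_apply _ hs]

end

end Pool.Agent.Q216.PB
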