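import Pool.Agent.Q216.PB.ToRel

set_option autoImplicit false

/-!
# Quantile function and monotone transport
-/

namespace Pool.Agent.Q216.PB

open MeasureTheory Set Filter Topology
open scoped ENNReal

section

variable {w : ℝ} {μ σ : Measure ℝ}

/-- the distribution function -/
noncomputable def F (μ : Measure ℝ) (x : ℝ) : ℝ := μ.real (Iic x)

lemma Rel.F_mono (h : Rel w μ σ) : Monotone (F μ) := by
  have := h.pμ
  intro x y hxy
  exact measureReal_mono (Iic_subset_Iic.2 hxy)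

lemma Rel.F_le_one (h : Rel w μ σ) (x : ℝ) : F μ x ≤ 1 := by
  have := h.pμ
  exact measureReal_le_one

lemma Rel.F_top (h : Rel w μ σ) : Tendsto (F μ) atTop (𝓝 1) := by
  have := h.pμ
  have h1 := tendsto_measure_Iic_atTop μ
  rw [measure_univ] at h1
  have h2 := (ENNReal.tendsto_toReal ENNReal.one_ne_top).comp h1
  rw [ENNReal.toReal_one] at h2
  exact h2

lemma Rel.F_zero (h : Rel w μ σ) : Tendsto (fun n : ℕ => F μ (1 / ((n : ℝ) + 1))) atTop (𝓝 0) := by
  have := h.pμ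
  have h1 : Tendsto (fun n : ℕ => μ (Iic (1 / ((n : ℝ) + 1)))) atTop (𝓝 (μ (⋂ n : ℕ, Iic (1 / ((n : ℝ) + 1))))) := by
    refine tendsto_measure_iInter_atTop (fun n => measurableSet_Iic.nullMeasurableSet) ?_ ⟨0, measure_ne_top _ _⟩
    intro m n hmn
    refine Iic_subset_Iic.2 ?_
    exact one_div_le_one_div_of_le (by positivity) (by have : (m : ℝ) ≤ n := by exact_mod_cast hmn
                                                       linarith)
  have h2 : (⋂ n : ℕ, Iic (1 / ((n : ℝ) + 1))) = Iic (0 : ℝ) := by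
    ext z
    simp only [mem_iInter, mem_Iic]
    constructor
    · intro hz
      exact ge_of_tendsto' tendsto_one_div_add_atTop_nhds_zero_nat hz
    · intro hz n
      exact hz.trans (by positivity)
  rw [h2, h.pos] at h1
  have h3 := (ENNReal.tendsto_toReal ENNReal.zero_ne_top).comp h1
  rw [ENNReal.toReal_zero] at h3
  exact h3

lemma Rel.exists_quantile (h : Rel w μ σ) {θ : ℝ} (hθ : θ ∈ Ioo (0:ℝ) 1) : ∃ y, 0 < y ∧ F μ y = θ := by
  obtain ⟨n, hn⟩ := (h.F_zero.eventually (gt_mem_nhds hθ.1)).exists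
  obtain ⟨b, hb1, hb2⟩ := ((h.F_top.eventually (lt_mem_nhds hθ.2)).and (eventually_ge_atTop (1 / ((n : ℝ) + 1)))).exists
  have ha : 0 < 1 / ((n : ℝ) + 1) := by positivity
  have hc : ContinuousOn (F μ) (Icc (1 / ((n : ℝ) + 1)) b) := by
    intro y hy
    exact (h.F_cont (ha.trans_le hy.1)).continuousWithinAt
  obtain ⟨y, hy1, hy2⟩ := intermediate_value_Icc hb2 hc ⟨hn.le, hb1.le⟩
  exact ⟨y, ha.trans_le hy1.1, hy2⟩

open Classical in
/-- the quantile function (`0` outside `(0,1)`) -/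
noncomputable def Q (μ : Measure ℝ) (θ : ℝ) : ℝ :=
  if h : θ ∈ Ioo (0:ℝ) 1 ∧ ∃ y, 0 < y ∧ F μ y = θ then Classical.choose h.2 else 0

lemma Rel.Q_spec (h : Rel w μ σ) {θ : ℝ} (hθ : θ ∈ Ioo (0:ℝ) 1) : 0 < Q μ θ ∧ F μ (Q μ θ) = θ := by
  unfold Q
  rw [dif_pos ⟨hθ, h.exists_quantile hθ⟩]
  exact Classical.choose_spec (h.exists_quantile hθ)

/-- strict monotonicity, as an equivalence -/
lemma Rel.F_lt_iff (h : Rel w μ σ) {x y : ℝ} (hx : 0 < x) (hF : F μ x < 1) : F μ x < F μ y ↔ x < y := by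
  constructor
  · intro h1
    by_contra hcon
    push Not at hcon
    linarith [h.F_mono hcon]
  · intro h1
    exact h.F_strict hx h1 hF

lemma Rel.F_le_iff (h : Rel w μ σ) {x y : ℝ} (hy : 0 < y) (hF : F μ y < 1) : F μ x ≤ F μ y ↔ x ≤ y := by
  rw [← not_lt, h.F_lt_iff hy hF, not_lt]

lemma Rel.Q_F (h : Rel w μ σ) {x : ℝ} (hx : 0 < x) (hF : F μ x < 1) : Q μ (F μ x) = x := by
  have hθ : F μ x ∈ Ioo (0:ℝ) 1 := ⟨h.F_pos hx, hF⟩
  obtain ⟨h1, h2⟩ := h.Q_spec hθ
  apply le_antisymm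
  · rw [← h.F_le_iff hx hF, h2]
  · rw [← h.F_le_iff h1 (by rw [h2]; exact hF), h2]

lemma Rel.Q_cont (h : Rel w μ σ) {θ : ℝ} (hθ : θ ∈ Ioo (0:ℝ) 1) : ContinuousAt (Q μ) θ := by
  obtain ⟨h1, h2⟩ := h.Q_spec hθ
  have hnear : ∀ᶠ t in 𝓝 θ, t ∈ Ioo (0:ℝ) 1 := isOpen_Ioo.mem_nhds hθ
  have hF1 : F μ (Q μ θ) < 1 := by rw [h2]; exact hθ.2
  rw [ContinuousAt, tendsto_order]
  constructor
  · intro a ha
    rcases le_or_gt a 0 with ha0 | ha0
    · filter_upwards [hnear] with t ht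
      exact ha0.trans_lt (h.Q_spec ht).1
    · have h3 : F μ a < θ := by
        rw [← h2]
        have hFa : F μ a ≤ F μ (Q μ θ) := h.F_mono ha.le
        exact (h.F_lt_iff ha0 (by linarith)).2 ha
      filter_upwards [hnear, lt_mem_nhds h3] with t ht ht2
      obtain ⟨h4, h5⟩ := h.Q_spec ht
      by_contra hcon
      push Not at hcon
      have := h.F_mono hcon
      rw [h5] at this
      linarith
  · intro b hb
    have h3 : θ < F μ b := by
      conv_lhs => rw [← h2]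
      exact (h.F_lt_iff h1 hF1).2 hb
    filter_upwards [hnear, gt_mem_nhds h3] with t ht ht2
    obtain ⟨h4, h5⟩ := h.Q_spec ht
    by_contra hcon
    push Not at hcon
    have := h.F_mono hcon
    rw [h5] at this
    linarith

lemma Rel.Q_deriv (h : Rel w μ σ) {θ : ℝ} (hθ : θ ∈ Ioo (0:ℝ) 1) :
    HasDerivAt (Q μ) (fd w σ (Q μ θ))⁻¹ θ := by
  obtain ⟨h1, h2⟩ := h.Q_spec hθ
  have hF1 : F μ (Q μ θ) < 1 := by rw [h2]; exact hθ.2
  refine HasDerivAt.of_local_left_inverse (f := F μ) (h.Q_cont hθ) (h.F_deriv h1)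
    (h.fd_pos h1 hF1).ne' ?_
  filter_upwards [isOpen_Ioo.mem_nhds hθ] with t ht
  exact (h.Q_spec ht).2

lemma Rel.Q_meas (h : Rel w μ σ) : Measurable (Q μ) := by
  classical
  have h1 : Q μ = (Ioo (0:ℝ) 1).piecewise (Q μ) 0 := by
    funext θ
    by_cases hθ : θ ∈ Ioo (0:ℝ) 1
    · rw [piecewise_eq_of_mem _ _ _ hθ]
    · rw [piecewise_eq_of_notMem _ _ _ hθ]
      unfold Q
      rw [dif_neg (fun hh => hθ hh.1)]
      rfl
  rw [h1]
  exact ContinuousOn.measurable_piecewise (fun θ hθ => (h.Q_cont hθ).continuousWithinAt)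
    continuousOn_const measurableSet_Ioo

end

/-! ### two solutions -/

section

variable {w : ℝ} {μ σ ν τ : Measure ℝ}

/-- the monotone transport map from `μ` to `ν` -/
noncomputable def T (μ ν : Measure ℝ) (x : ℝ) : ℝ := Q ν (F μ x)

lemma T_meas (h : Rel w μ σ) (h' : Rel w ν τ) : Measurable (T μ ν) :=
  h'.Q_meas.comp h.F_mono.measurable

lemma T_spec (h : Rel w μ σ) (h' : Rel w ν τ) {x : ℝ} (hx : 0 < x) (hF : F μ x < 1) :
    0 < T μ ν x ∧ F ν (T μ ν x) = F μ x := h'.Q_spec ⟨h.F_pos hx, hF⟩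

lemma T_cont (h : Rel w μ σ) (h' : Rel w ν τ) {x : ℝ} (hx : 0 < x) (hF : F μ x < 1) :
    ContinuousAt (T μ ν) x := by
  unfold T
  exact ContinuousAt.comp (g := Q ν) (f := F μ) (h'.Q_cont ⟨h.F_pos hx, hF⟩) (h.F_cont hx)

lemma T_deriv (h : Rel w μ σ) (h' : Rel w ν τ) {x : ℝ} (hx : 0 < x) (hF : F μ x < 1) :
    HasDerivAt (T μ ν) ((fd w τ (T μ ν x))⁻¹ * fd w σ x) x :=
  HasDerivAt.comp x (h'.Q_deriv ⟨h.F_pos hx, hF⟩) (h.F_deriv hx)

lemma T_map (h : Rel w μ σ) (h' : Rel w ν τ) (hreg : ∀ᵐ x ∂μ, 0 < x ∧ F μ x < 1) :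
    μ.map (T μ ν) = ν := by
  have hp := h.pμ
  have hq := h'.pμ
  have hT := T_meas h h'
  have : IsProbabilityMeasure (μ.map (T μ ν)) := Measure.isProbabilityMeasure_map hT.aemeasurable
  refine Measure.ext_of_Iic _ _ (fun y => ?_)
  rw [Measure.map_apply hT measurableSet_Iic]
  rcases le_or_gt y 0 with hy | hy
  · have h1 : ν (Iic y) = 0 := measure_mono_null (Iic_subset_Iic.2 hy) h'.pos
    rw [h1]
    have h2 : ∀ᵐ x ∂μ, x ∉ T μ ν ⁻¹' Iic y := by
      filter_upwards [hreg] with x hx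
      rw [mem_preimage, mem_Iic, not_le]
      exact hy.trans_lt (T_spec h h' hx.1 hx.2).1
    exact measure_eq_zero_iff_ae_notMem.2 h2
  · rcases lt_or_ge (F ν y) 1 with h1 | h1
    · -- x0 = Q μ (F ν y)
      have hθ : F ν y ∈ Ioo (0:ℝ) 1 := ⟨h'.F_pos hy, h1⟩
      obtain ⟨h2, h3⟩ := h.Q_spec hθ
      have h4 : (T μ ν ⁻¹' Iic y : Set ℝ) =ᵐ[μ] Iic (Q μ (F ν y)) := by
        filter_upwards [hreg] with x hx
        obtain ⟨h5, h6⟩ := T_spec h h' hx.1 hx.2
        refine propext ?_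
        change T μ ν x ≤ y ↔ x ≤ Q μ (F ν y)
        rw [← h'.F_le_iff hy h1, h6, ← h.F_le_iff h2 (by rw [h3]; exact h1), h3]
      rw [measure_congr h4]
      have h7 : μ.real (Iic (Q μ (F ν y))) = ν.real (Iic y) := h3
      rw [← ENNReal.ofReal_toReal (measure_ne_top μ (Iic (Q μ (F ν y)))),
        ← ENNReal.ofReal_toReal (measure_ne_top ν (Iic y))]
      exact congrArg ENNReal.ofReal h7
    · have h8 : F ν y = 1 := le_antisymm (h'.F_le_one y) h1
      have h9 : ν (Iic y) = 1 := by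
        rw [← ENNReal.ofReal_toReal (measure_ne_top ν (Iic y))]
        have : (ν (Iic y)).toReal = 1 := h8
        rw [this]; simp
      rw [h9]
      have h10 : (T μ ν ⁻¹' Iic y : Set ℝ) =ᵐ[μ] univ := by
        filter_upwards [hreg] with x hx
        obtain ⟨h5, h6⟩ := T_spec h h' hx.1 hx.2
        refine propext ?_
        change T μ ν x ≤ y ↔ True
        rw [iff_true]
        have : F ν (T μ ν x) < F ν y := by rw [h6, h8]; exact hx.2
        exact ((h'.F_lt_iff h5 (by rw [h6]; exact hx.2)).1 this).le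
      rw [measure_congr h10, measure_univ]

end

end Pool.Agent.Q216.PB
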